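import Pool.Agent.helper87.ArrD3.Final

set_option autoImplicit false

/-!
# The theorem in the form of the frozen statement, `d = 3`
-/

namespace Pool.Agent.helper87.ArrD3

open Finset

section gen

variable {n d : ℕ}

/-- the linear form with coefficients `a i` -/
def lin (a : Fin n → Fin d → ℝ) (i : Fin n) : (Fin d → ℝ) →ₗ[ℝ] ℝ where
  toFun x := ∑ j, a i j * x j
  map_add' x y := by
    simp only [Pi.add_apply, mul_add, sum_add_distrib]
  map_smul' r x := by
    simp only [Pi.smul_apply, smul_eq_mul, RingHom.id_apply, mul_sum]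
    exact sum_congr rfl fun j _ => by ring

lemma lin_apply (a : Fin n → Fin d → ℝ) (i : Fin n) (x : Fin d → ℝ) :
    lin a i x = ∑ j, a i j * x j := rfl

/-- the arrangement of the statement -/
def mkArr (hdn : d ≤ n) (a : Fin n → Fin d → ℝ) (b : Fin n → ℝ)
    (h1 : ∀ s : Finset (Fin n), s.card = d →
        ∃! x : Fin d → ℝ, ∀ i ∈ s, ∑ j, a i j * x j = b i)
    (h2 : ∀ s : Finset (Fin n), s.card = d + 1 →
        ¬ ∃ x : Fin d → ℝ, ∀ i ∈ s, ∑ j, a i j * x j = b i) : Arr (Fin n) d where
  A := lin a
  c i := - b i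
  hcard := by rw [Fintype.card_fin]; exact hdn
  indep s hs r := by
    -- the map `x ↦ (A i x)_{i ∈ s}` is injective, hence bijective
    obtain ⟨x0, hx0, huniq⟩ := h1 s hs
    let L : (Fin d → ℝ) →ₗ[ℝ] (s → ℝ) := LinearMap.pi (fun i : s => lin a i)
    have hinj : Function.Injective L := by
      rw [← LinearMap.ker_eq_bot, LinearMap.ker_eq_bot']
      intro y hy
      have h3 := huniq (x0 + y) (by
        intro i hi
        have h4 := congrFun hy ⟨i, hi⟩
        have h5 : lin a i y = 0 := h4
        have h6 := hx0 i hi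
        rw [← lin_apply] at h6 ⊢
        rw [map_add, h5, add_zero, h6])
      rwa [add_eq_left] at h3
    have hfin : Module.finrank ℝ (Fin d → ℝ) = Module.finrank ℝ (s → ℝ) := by
      rw [Module.finrank_fin_fun, Module.finrank_fintype_fun_eq_card, Fintype.card_coe, hs]
    have hsurj : Function.Surjective L :=
      (LinearMap.injective_iff_surjective_of_finrank_eq_finrank hfin).1 hinj
    obtain ⟨x, hx⟩ := hsurj (fun i => r i)
    refine ⟨x, fun i hi => congrFun hx ⟨i, hi⟩, fun y hy => ?_⟩
    apply hinj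
    rw [hx]
    ext ⟨i, hi⟩
    exact hy i hi
  gen s hs := by
    rintro ⟨x, hx⟩
    apply h2 s hs
    refine ⟨x, fun i hi => ?_⟩
    have := hx i hi
    rw [lin_apply] at this
    linarith

end gen

namespace Arr

variable {ι : Type} [Fintype ι] [DecidableEq ι] {d : ℕ} (a : Arr ι d)

/-- open cells -/
def cell (τ : Finset ι) : Set (Fin d → ℝ) := {x | ∀ i, 0 < sg τ i * a.g i x}

lemma cell_nonempty_iff {τ : Finset ι} : (a.cell τ).Nonempty ↔ a.NE ∅ univ τ := by
  unfold NE cell Set.Nonempty
  simp

/-- A nonempty cell is bounded iff its recession cone is trivial. -/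
lemma bounded_iff {τ : Finset ι} (hne : (a.cell τ).Nonempty) :
    Bornology.IsBounded (a.cell τ) ↔ a.RT ∅ univ τ := by
  constructor
  · intro hb y _ hy
    by_contra hy0
    obtain ⟨x, hx⟩ := hne
    rw [Metric.isBounded_iff_subset_closedBall 0] at hb
    obtain ⟨R, hR⟩ := hb
    have hR' : ∀ t : ℝ, 0 ≤ t → ‖x + t • y‖ ≤ R := by
      intro t ht
      have : x + t • y ∈ a.cell τ := by
        intro i
        rw [g_add]
        have h1 := hx i
        have h2 := mul_nonneg ht (hy i (mem_univ i))
        nlinarith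
      have := hR this
      rwa [mem_closedBall_zero_iff] at this
    have hny : 0 < ‖y‖ := norm_pos_iff.2 hy0
    have hRx : ‖x‖ ≤ R := by simpa using hR' 0 le_rfl
    have hR0 : 0 ≤ R := (norm_nonneg x).trans hRx
    have h3 := hR' ((R + ‖x‖ + 1) / ‖y‖) (by positivity)
    have h4 : ‖((R + ‖x‖ + 1) / ‖y‖) • y‖ = R + ‖x‖ + 1 := by
      rw [norm_smul, Real.norm_of_nonneg (by positivity)]
      field_simp
    have h5 : ‖((R + ‖x‖ + 1) / ‖y‖) • y‖ ≤ ‖x + ((R + ‖x‖ + 1) / ‖y‖) • y‖ + ‖x‖ := by
      have := norm_sub_le (x + ((R + ‖x‖ + 1) / ‖y‖) • y) x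
      rwa [add_sub_cancel_left] at this
    rw [h4] at h5
    linarith
  · intro hR
    -- `h y = ∑ max 0 (- sg * A i y)` is positive off `0`
    set h : (Fin d → ℝ) → ℝ := fun y => ∑ i, max 0 (- (sg τ i * a.A i y)) with hh
    have hcont : Continuous h := by
      rw [hh]
      refine continuous_finsetSum _ fun i _ => ?_
      have : Continuous (a.A i) := LinearMap.continuous_of_finiteDimensional _
      fun_prop
    have hpos : ∀ y, y ≠ 0 → 0 < h y := by
      intro y hy
      by_contra hcon
      push Not at hcon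
      apply hy
      apply hR y (by simp)
      intro i _
      by_contra hi
      push Not at hi
      have : 0 < h y := by
        apply sum_pos'
        · intro j _; exact le_max_left _ _
        · exact ⟨i, mem_univ _, lt_max_of_lt_right (by linarith)⟩
      linarith
    have hδ : ∃ δ : ℝ, 0 < δ ∧ ∀ y, ‖y‖ = 1 → δ ≤ h y := by
      by_cases hs : (Metric.sphere (0 : Fin d → ℝ) 1).Nonempty
      · obtain ⟨y0, hy0, hmin⟩ := (isCompact_sphere (0 : Fin d → ℝ) 1).exists_isMinOn hs
          hcont.continuousOn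
        refine ⟨h y0, hpos y0 ?_, fun y hy => hmin (by simpa using hy)⟩
        rintro rfl
        simp at hy0
      · refine ⟨1, one_pos, fun y hy => ?_⟩
        exact absurd ⟨y, by simpa using hy⟩ hs
    obtain ⟨δ, hδ0, hδ⟩ := hδ
    rw [Metric.isBounded_iff_subset_closedBall 0]
    refine ⟨(∑ i, |a.c i|) / δ, fun x hx => ?_⟩
    rw [mem_closedBall_zero_iff, le_div_iff₀ hδ0]
    have h1 : h x ≤ ∑ i, |a.c i| := by
      apply sum_le_sum
      intro i _
      apply max_le (abs_nonneg _)
      have h2 := hx i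
      unfold g at h2
      have h3 : sg τ i * a.c i ≤ |a.c i| := by
        unfold sg
        split_ifs
        · rw [one_mul]; exact le_abs_self _
        · rw [neg_one_mul]; exact neg_le_abs _
      rw [mul_add] at h2
      linarith
    have h2 : ‖x‖ * δ ≤ h x := by
      rcases eq_or_ne x 0 with h0 | h0
      · rw [h0, norm_zero, zero_mul]
        exact sum_nonneg fun i _ => le_max_left _ _
      · have hnx : 0 < ‖x‖ := norm_pos_iff.2 h0
        have h3 := hδ (‖x‖⁻¹ • x) (by
          rw [norm_smul, norm_inv, norm_norm, inv_mul_cancel₀ hnx.ne'])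
        have h4 : h x = ‖x‖ * h (‖x‖⁻¹ • x) := by
          rw [hh]
          simp only
          rw [mul_sum]
          apply sum_congr rfl
          intro i _
          rw [map_smul, smul_eq_mul, mul_max_of_nonneg _ _ hnx.le, mul_zero]
          congr 1
          field_simp
        rw [h4]
        exact mul_le_mul_of_nonneg_left h3 hnx.le
    exact h2.trans h1

/-- the closed cell as a simple polytope -/
def toSP {ι : Type} [Fintype ι] [DecidableEq ι] (a : Arr ι 3) {τ : Finset ι}
    (h : τ ∈ a.bcells) : SP ι where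
  A i := sg τ i • a.A i
  c i := sg τ i * a.c i
  three := a.hcard
  indep s hs r := by
    obtain ⟨x, hx, hu⟩ := a.indep s hs (fun i => sg τ i * r i)
    refine ⟨x, fun i hi => ?_, fun y hy => hu y fun i hi => ?_⟩
    · have := hx i hi
      simp only [LinearMap.smul_apply, smul_eq_mul, this]
      rw [← mul_assoc, sg_mul_self, one_mul]
    · have := hy i hi
      simp only [LinearMap.smul_apply, smul_eq_mul] at this
      rw [← this, ← mul_assoc, sg_mul_self, one_mul]
  gen s hs := by
    rintro ⟨x, hx⟩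
    apply a.gen s hs
    refine ⟨x, fun i hi => ?_⟩
    have h1 := hx i hi
    simp only [LinearMap.smul_apply, smul_eq_mul] at h1
    have h2 : sg τ i * (sg τ i * a.A i x + sg τ i * a.c i) = a.A i x + a.c i := by
      rw [← mul_add, ← mul_assoc, sg_mul_self, one_mul]
    rw [← h2, h1, mul_zero]
  bdd y hy := by
    apply (a.mem_bcells.1 h).2 y (by simp)
    intro i _
    exact hy i
  int := by
    obtain ⟨x, _, hx⟩ := (a.mem_bcells.1 h).1
    refine ⟨x, fun i => ?_⟩
    have := hx i (mem_univ i)
    unfold g at this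
    rw [mul_add] at this
    simpa using this

lemma toSP_g {ι : Type} [Fintype ι] [DecidableEq ι] (a : Arr ι 3) {τ : Finset ι}
    (h : τ ∈ a.bcells) (i : ι) (x : Fin 3 → ℝ) : (a.toSP h).g i x = sg τ i * a.g i x := by
  unfold SP.g toSP g
  simp only [LinearMap.smul_apply, smul_eq_mul]
  ring

lemma Fc_le_deg {ι : Type} [Fintype ι] [DecidableEq ι] (a : Arr ι 3) {τ : Finset ι}
    (h : τ ∈ a.bcells) : (a.toSP h).Fc.card ≤ a.deg τ := by
  classical
  unfold deg
  apply card_le_card
  intro i hi
  unfold SP.Fc at hi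
  rw [mem_biUnion] at hi
  obtain ⟨s, hs, his⟩ := hi
  simp only [id] at his
  rw [mem_filter]
  refine ⟨mem_univ _, ?_⟩
  rw [mem_cells]
  set p := a.toSP h with hp
  obtain ⟨hs3, hP⟩ := p.mem_Vx.1 hs
  obtain ⟨v, hv, _⟩ := p.indep s hs3 (fun j => if j = i then -1 else 1)
  have h1 : ∀ᶠ r : ℝ in nhdsWithin 0 (Set.Ioi 0), ∀ j ∈ (univ : Finset ι), j ∉ s →
      0 < p.g j (p.pt s + r • v) := by
    rw [Filter.eventually_all_finset]
    intro j _
    by_cases hj : j ∈ s
    · exact Filter.Eventually.of_forall fun r hr => absurd hj hr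
    · have hc1 : Continuous (fun r : ℝ => p.g j (p.pt s + r • v)) := by
        simp only [SP.g_add]
        fun_prop
      have h3 := (isOpen_lt continuous_const hc1).mem_nhds (x := (0 : ℝ))
        (by simpa using p.pos_of_notMem hs hj)
      exact Filter.mem_of_superset (mem_nhdsWithin_of_mem_nhds h3) (fun r hr _ => hr)
  have h2 : ∀ᶠ r : ℝ in nhdsWithin 0 (Set.Ioi 0), 0 < r := self_mem_nhdsWithin
  obtain ⟨r, hr1, hr2⟩ := (h1.and h2).exists
  have key : ∀ j, j ≠ i → 0 < p.g j (p.pt s + r • v) := by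
    intro j hj
    by_cases hjs : j ∈ s
    · rw [SP.g_add, p.g_pt hs3 hjs, hv j hjs, if_neg hj]; linarith
    · exact hr1 j (mem_univ _) hjs
  have keyi : p.g i (p.pt s + r • v) < 0 := by
    rw [SP.g_add, p.g_pt hs3 his, hv i his, if_pos rfl]; linarith
  refine ⟨p.pt s + r • v, by simp, fun j _ => ?_⟩
  by_cases hj : j = i
  · subst hj
    rw [hp, toSP_g] at keyi
    unfold flip
    unfold sg at keyi ⊢
    split_ifs with h3 h4 h4
    · exact absurd h4 (notMem_erase _ _)
    · rw [if_pos h3] at keyi; linarith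
    · rw [if_neg h3] at keyi; linarith
    · exact absurd (mem_insert_self _ _) h4
  · have h3 := key j hj
    rw [hp, toSP_g] at h3
    have h4 : sg (flip i τ) j = sg τ j := by
      have h7 : j ∈ flip i τ ↔ j ∈ τ := by
        unfold flip
        split_ifs with h5
        · rw [mem_erase]; exact ⟨fun h => h.2, fun h => ⟨hj, h⟩⟩
        · rw [mem_insert]; exact ⟨fun h => h.resolve_left hj, Or.inr⟩
      unfold sg
      by_cases h8 : j ∈ τ
      · rw [if_pos h8, if_pos (h7.2 h8)]
      · rw [if_neg h8, if_neg (fun h => h8 (h7.1 h))]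
    rw [h4]
    exact h3

end Arr

open scoped Classical in
/-- **Average diameter of the bounded cells in dimension 3.** -/
theorem avg_diam_three (n : ℕ) (hn : 3 < n)
    (a : Fin n → Fin 3 → ℝ) (b : Fin n → ℝ)
    (h1 : ∀ s : Finset (Fin n), s.card = 3 →
        ∃! x : Fin 3 → ℝ, ∀ i ∈ s, ∑ j, a i j * x j = b i)
    (h2 : ∀ s : Finset (Fin n), s.card = 3 + 1 →
        ¬ ∃ x : Fin 3 → ℝ, ∀ i ∈ s, ∑ j, a i j * x j = b i)
    (C P : Finset (Fin n) → Set (Fin 3 → ℝ))
    (hC : ∀ S, C S = {x | ∀ i, (i ∈ S → b i < ∑ j, a i j * x j) ∧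
                          (i ∉ S → ∑ j, a i j * x j < b i)})
    (hP : ∀ S, P S = {x | ∀ i, (i ∈ S → b i ≤ ∑ j, a i j * x j) ∧
                          (i ∉ S → ∑ j, a i j * x j ≤ b i)}) :
    (∑ S ∈ Finset.univ.filter
          (fun S : Finset (Fin n) => (C S).Nonempty ∧ Bornology.IsBounded (C S)),
        (SimpleGraph.fromRel
          (fun v w : Set.extremePoints ℝ (P S) =>
            IsExtreme ℝ (P S) (segment ℝ (v : Fin 3 → ℝ) (w : Fin 3 → ℝ)))).diam)
      ≤ 3 * (Finset.univ.filter
          (fun S : Finset (Fin n) => (C S).Nonempty ∧ Bornology.IsBounded (C S))).card := by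
  set M := mkArr (by omega) a b h1 h2 with hM
  have hg : ∀ i x, M.g i x = ∑ j, a i j * x j - b i := fun i x => rfl
  have hCc : ∀ S, C S = M.cell S := by
    intro S
    rw [hC]
    ext x
    simp only [Set.mem_ofPred_eq, Arr.cell, hg, Arr.sg]
    refine forall_congr' fun i => ?_
    by_cases hi : i ∈ S
    · simp only [hi, true_implies, not_true_eq_false, false_implies, and_true, if_true, one_mul,
        sub_pos]
    · simp only [hi, false_implies, not_false_eq_true, true_implies, true_and, if_false,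
        neg_one_mul, neg_sub, sub_pos]
  have hfil : (Finset.univ.filter
      (fun S : Finset (Fin n) => (C S).Nonempty ∧ Bornology.IsBounded (C S))) = M.bcells := by
    ext S
    rw [mem_filter, M.mem_bcells, hCc]
    simp only [mem_univ, true_and]
    constructor
    · rintro ⟨h3, h4⟩
      exact ⟨M.cell_nonempty_iff.1 h3, (M.bounded_iff h3).1 h4⟩
    · rintro ⟨h3, h4⟩
      have h5 := M.cell_nonempty_iff.2 h3
      exact ⟨h5, (M.bounded_iff h5).2 h4⟩
  rw [hfil]
  have hPc : ∀ S (hS : S ∈ M.bcells), P S = (M.toSP hS).P := by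
    intro S hS
    rw [hP]
    ext x
    simp only [Set.mem_ofPred_eq, SP.P, Arr.toSP_g, hg, Arr.sg]
    refine forall_congr' fun i => ?_
    by_cases hi : i ∈ S
    · simp only [hi, true_implies, not_true_eq_false, false_implies, and_true, if_true, one_mul,
        sub_nonneg]
    · simp only [hi, false_implies, not_false_eq_true, true_implies, true_and, if_false,
        neg_one_mul, neg_sub, sub_nonneg]
  have hdiam : ∀ S ∈ M.bcells, 3 * (SimpleGraph.fromRel
          (fun v w : Set.extremePoints ℝ (P S) =>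
            IsExtreme ℝ (P S) (segment ℝ (v : Fin 3 → ℝ) (w : Fin 3 → ℝ)))).diam + 3 ≤
      2 * M.deg S := by
    intro S hS
    rw [hPc S hS]
    exact ((M.toSP hS).diam_le).trans (Nat.mul_le_mul_left 2 (M.Fc_le_deg hS))
  have h3 := sum_le_sum hdiam
  rw [sum_add_distrib, ← mul_sum, ← mul_sum, sum_const, smul_eq_mul] at h3
  have h4 := sum_deg_three M (by rw [Fintype.card_fin]; omega)
  omega

end Pool.Agent.helper87.ArrD3
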