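import Mathlib

set_option autoImplicit false

/-!
# Counting bounded cells of simple arrangements by deletion and restriction
-/

namespace Pool.Agent.helper87.ArrD3

open Finset

/-- A simple arrangement of hyperplanes `A i x + c i = 0` in `ℝ^d`. -/
structure Arr (ι : Type) [Fintype ι] [DecidableEq ι] (d : ℕ) where
  A : ι → (Fin d → ℝ) →ₗ[ℝ] ℝ
  c : ι → ℝ
  hcard : d ≤ Fintype.card ι
  indep : ∀ s : Finset ι, s.card = d → ∀ r : ι → ℝ, ∃! x : Fin d → ℝ, ∀ i ∈ s, A i x = r i
  gen : ∀ s : Finset ι, s.card = d + 1 → ¬ ∃ x : Fin d → ℝ, ∀ i ∈ s, A i x + c i = 0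

namespace Arr

variable {ι : Type} [Fintype ι] [DecidableEq ι] {d : ℕ} (a : Arr ι d)

def g (i : ι) (x : Fin d → ℝ) : ℝ := a.A i x + a.c i

lemma g_add (i : ι) (x v : Fin d → ℝ) (t : ℝ) : a.g i (x + t • v) = a.g i x + t * a.A i v := by
  simp only [g, map_add, map_smul, smul_eq_mul]; ring

lemma solve {s : Finset ι} (hs : s.card ≤ d) (r : ι → ℝ) : ∃ x : Fin d → ℝ, ∀ i ∈ s, a.A i x = r i := by
  obtain ⟨t, hst, ht⟩ := exists_superset_card_eq hs a.hcard
  obtain ⟨x, hx⟩ := (a.indep t ht r).exists
  exact ⟨x, fun i hi => hx i (hst hi)⟩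

lemma zero_of {s : Finset ι} (hs : d ≤ s.card) {y : Fin d → ℝ} (hy : ∀ i ∈ s, a.A i y = 0) :
    y = 0 := by
  obtain ⟨t, hst, ht⟩ := exists_subset_card_eq hs
  refine (a.indep t ht (fun _ => 0)).unique (fun i hi => hy i (hst hi)) (fun i _ => by simp)

/-- the sign `+1` on `τ`, `-1` off `τ` -/
def sg (τ : Finset ι) (i : ι) : ℝ := if i ∈ τ then 1 else -1

omit [Fintype ι] in
lemma sg_mul_self (τ : Finset ι) (i : ι) : sg τ i * sg τ i = 1 := by
  unfold sg; split_ifs <;> norm_num

/-- the cell of sign vector `τ` of the arrangement induced by `E` on `⋂ i ∈ S, {g i = 0}` is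
nonempty -/
def NE (S E τ : Finset ι) : Prop :=
  ∃ x, (∀ i ∈ S, a.g i x = 0) ∧ ∀ i ∈ E, 0 < sg τ i * a.g i x

/-- ... has trivial recession cone -/
def RT (S E τ : Finset ι) : Prop :=
  ∀ y, (∀ i ∈ S, a.A i y = 0) → (∀ i ∈ E, 0 ≤ sg τ i * a.A i y) → y = 0

open Classical in
/-- number of bounded cells -/
noncomputable def bc (S E : Finset ι) : ℕ :=
  (E.powerset.filter (fun τ => a.NE S E τ ∧ a.RT S E τ)).card

omit [Fintype ι] in
lemma sg_insert_ne {τ : Finset ι} {e i : ι} (h : i ≠ e) : sg (insert e τ) i = sg τ i := by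
  unfold sg
  simp [h]

omit [Fintype ι] in
lemma sg_insert_self {τ : Finset ι} {e : ι} : sg (insert e τ) e = 1 := by
  unfold sg
  simp

omit [Fintype ι] in
lemma sg_notMem {τ : Finset ι} {e : ι} (h : e ∉ τ) : sg τ e = -1 := by
  unfold sg
  simp [h]

/-- If a strictly signed affine system contains points on both sides of `g e = 0`, it contains
a point on it. -/
lemma cross {S E τ : Finset ι} {e : ι} {x y : Fin d → ℝ} (hxS : ∀ i ∈ S, a.g i x = 0)
    (hxE : ∀ i ∈ E, 0 < sg τ i * a.g i x) (hyS : ∀ i ∈ S, a.g i y = 0)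
    (hyE : ∀ i ∈ E, 0 < sg τ i * a.g i y) (hx : 0 < a.g e x) (hy : a.g e y < 0) :
    a.NE (insert e S) E τ := by
  set t := a.g e x / (a.g e x - a.g e y) with ht
  have hD : 0 < a.g e x - a.g e y := by linarith
  have ht0 : 0 < t := div_pos hx hD
  have ht1 : t < 1 := by rw [ht, div_lt_one hD]; linarith
  have key : ∀ i, a.g i (x + t • (y - x)) = (1 - t) * a.g i x + t * a.g i y := by
    intro i
    rw [g_add]
    have : a.A i (y - x) = a.g i y - a.g i x := by unfold g; rw [map_sub]; ring
    rw [this]; ring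
  refine ⟨x + t • (y - x), ?_, ?_⟩
  · intro i hi
    rw [key]
    rcases mem_insert.1 hi with rfl | hi
    · rw [ht]; field_simp; ring
    · rw [hxS i hi, hyS i hi]; ring
  · intro i hi
    rw [key]
    have h1 := mul_pos (by linarith : 0 < 1 - t) (hxE i hi)
    have h2 := mul_pos ht0 (hyE i hi)
    nlinarith

/-- small moves stay in an open cell -/
lemma exists_small {E τ : Finset ι} {x : Fin d → ℝ} (hxE : ∀ i ∈ E, 0 < sg τ i * a.g i x)
    (v : Fin d → ℝ) : ∃ r : ℝ, 0 < r ∧ ∀ i ∈ E, 0 < sg τ i * a.g i (x + r • v) := by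
  have h1 : ∀ᶠ r : ℝ in nhdsWithin 0 (Set.Ioi 0), ∀ i ∈ E, 0 < sg τ i * a.g i (x + r • v) := by
    rw [Filter.eventually_all_finset]
    intro i hi
    have hc1 : Continuous (fun r : ℝ => sg τ i * a.g i (x + r • v)) := by
      simp only [g_add]
      fun_prop
    have h3 := (isOpen_lt continuous_const hc1).mem_nhds (x := (0 : ℝ)) (by simpa using hxE i hi)
    exact Filter.mem_of_superset (mem_nhdsWithin_of_mem_nhds h3) (fun r hr => hr)
  have h2 : ∀ᶠ r : ℝ in nhdsWithin 0 (Set.Ioi 0), 0 < r := self_mem_nhdsWithin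
  obtain ⟨r, hr1, hr2⟩ := (h1.and h2).exists
  exact ⟨r, hr2, hr1⟩

section step

variable {S E τ : Finset ι} {e : ι} (heE : e ∉ E) (heS : e ∉ S) (heτ : e ∉ τ)

include heE in
omit [Fintype ι] in
lemma sg_ins {i : ι} (hi : i ∈ E) : sg (insert e τ) i = sg τ i :=
  sg_insert_ne (fun h => heE (h ▸ hi))

include heE heτ in
lemma NE_minus_iff : a.NE S (insert e E) τ ↔
    ∃ x, (∀ i ∈ S, a.g i x = 0) ∧ (∀ i ∈ E, 0 < sg τ i * a.g i x) ∧ a.g e x < 0 := by
  unfold NE
  constructor
  · rintro ⟨x, h1, h2⟩
    refine ⟨x, h1, fun i hi => h2 i (mem_insert_of_mem hi), ?_⟩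
    have := h2 e (mem_insert_self _ _)
    rw [sg_notMem heτ] at this
    linarith
  · rintro ⟨x, h1, h2, h3⟩
    refine ⟨x, h1, fun i hi => ?_⟩
    rcases mem_insert.1 hi with rfl | hi
    · rw [sg_notMem heτ]; linarith
    · exact h2 i hi

include heE in
lemma NE_plus_iff : a.NE S (insert e E) (insert e τ) ↔
    ∃ x, (∀ i ∈ S, a.g i x = 0) ∧ (∀ i ∈ E, 0 < sg τ i * a.g i x) ∧ 0 < a.g e x := by
  unfold NE
  constructor
  · rintro ⟨x, h1, h2⟩
    refine ⟨x, h1, fun i hi => ?_, ?_⟩
    · have := h2 i (mem_insert_of_mem hi)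
      rwa [sg_ins heE hi] at this
    · have := h2 e (mem_insert_self _ _)
      rw [sg_insert_self] at this
      linarith
  · rintro ⟨x, h1, h2, h3⟩
    refine ⟨x, h1, fun i hi => ?_⟩
    rcases mem_insert.1 hi with rfl | hi
    · rw [sg_insert_self]; linarith
    · rw [sg_ins heE hi]; exact h2 i hi

include heE heτ in
lemma RT_minus_iff : a.RT S (insert e E) τ ↔
    ∀ y, (∀ i ∈ S, a.A i y = 0) → (∀ i ∈ E, 0 ≤ sg τ i * a.A i y) → a.A e y ≤ 0 → y = 0 := by
  unfold RT
  constructor
  · intro h y h1 h2 h3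
    refine h y h1 (fun i hi => ?_)
    rcases mem_insert.1 hi with rfl | hi
    · rw [sg_notMem heτ]; linarith
    · exact h2 i hi
  · intro h y h1 h2
    refine h y h1 (fun i hi => h2 i (mem_insert_of_mem hi)) ?_
    have := h2 e (mem_insert_self _ _)
    rw [sg_notMem heτ] at this
    linarith

include heE in
lemma RT_plus_iff : a.RT S (insert e E) (insert e τ) ↔
    ∀ y, (∀ i ∈ S, a.A i y = 0) → (∀ i ∈ E, 0 ≤ sg τ i * a.A i y) → 0 ≤ a.A e y → y = 0 := by
  unfold RT
  constructor
  · intro h y h1 h2 h3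
    refine h y h1 (fun i hi => ?_)
    rcases mem_insert.1 hi with rfl | hi
    · rw [sg_insert_self]; linarith
    · rw [sg_ins heE hi]; exact h2 i hi
  · intro h y h1 h2
    refine h y h1 (fun i hi => ?_) ?_
    · have := h2 i (mem_insert_of_mem hi)
      rwa [sg_ins heE hi] at this
    · have := h2 e (mem_insert_self _ _)
      rw [sg_insert_self] at this
      linarith

/-- The combined count for one sign vector. -/
lemma step_count [Decidable (a.NE S (insert e E) τ ∧ a.RT S (insert e E) τ)]
    [Decidable (a.NE S (insert e E) (insert e τ) ∧ a.RT S (insert e E) (insert e τ))]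
    [Decidable (a.NE S E τ ∧ a.RT S E τ)]
    [Decidable (a.NE (insert e S) E τ ∧ a.RT (insert e S) E τ)]
    (heE : e ∉ E) (heS : e ∉ S) (heτ : e ∉ τ) (hSd : S.card + 1 ≤ d)
    (hdE : d ≤ (S ∪ E).card) :
    (if a.NE S (insert e E) τ ∧ a.RT S (insert e E) τ then 1 else 0) +
    (if a.NE S (insert e E) (insert e τ) ∧ a.RT S (insert e E) (insert e τ) then 1 else 0) =
    (if a.NE S E τ ∧ a.RT S E τ then 1 else 0) +
    (if a.NE (insert e S) E τ ∧ a.RT (insert e S) E τ then 1 else 0) := by
  -- nonemptiness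
  have n1 : a.NE S (insert e E) τ → a.NE S E τ := by
    rw [a.NE_minus_iff heE heτ]
    rintro ⟨x, h1, h2, _⟩
    exact ⟨x, h1, h2⟩
  have n2 : a.NE S (insert e E) (insert e τ) → a.NE S E τ := by
    rw [a.NE_plus_iff heE]
    rintro ⟨x, h1, h2, _⟩
    exact ⟨x, h1, h2⟩
  have n3 : a.NE S E τ → a.NE S (insert e E) τ ∨ a.NE S (insert e E) (insert e τ) ∨
      a.NE (insert e S) E τ := by
    rw [a.NE_minus_iff heE heτ, a.NE_plus_iff heE]
    rintro ⟨x, h1, h2⟩
    rcases lt_trichotomy (a.g e x) 0 with h | h | h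
    · left; exact ⟨x, h1, h2, h⟩
    · right; right
      refine ⟨x, fun i hi => ?_, h2⟩
      rcases mem_insert.1 hi with rfl | hi
      · exact h
      · exact h1 i hi
    · right; left; exact ⟨x, h1, h2, h⟩
  have n4 : a.NE S (insert e E) τ → a.NE S (insert e E) (insert e τ) → a.NE (insert e S) E τ := by
    rw [a.NE_minus_iff heE heτ, a.NE_plus_iff heE]
    rintro ⟨x, h1, h2, h3⟩ ⟨y, h4, h5, h6⟩
    exact a.cross h4 h5 h1 h2 h6 h3
  have n5 : a.NE (insert e S) E τ → a.NE S (insert e E) τ ∧ a.NE S (insert e E) (insert e τ) := by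
    rw [a.NE_minus_iff heE heτ, a.NE_plus_iff heE]
    rintro ⟨x, h1, h2⟩
    obtain ⟨v, hv⟩ := a.solve (s := insert e S) (by rw [card_insert_of_notMem heS]; exact hSd)
      (fun i => if i = e then 1 else 0)
    have hve : a.A e v = 1 := by simpa using hv e (mem_insert_self _ _)
    have hvS : ∀ i ∈ S, a.A i v = 0 := by
      intro i hi
      have := hv i (mem_insert_of_mem hi)
      rwa [if_neg (fun h : i = e => heS (h ▸ hi))] at this
    have hxe : a.g e x = 0 := h1 e (mem_insert_self _ _)
    constructor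
    · obtain ⟨r, hr, hr2⟩ := a.exists_small h2 (-v)
      refine ⟨x + r • (-v), fun i hi => ?_, hr2, ?_⟩
      · rw [g_add, h1 i (mem_insert_of_mem hi), map_neg, hvS i hi]; ring
      · rw [g_add, hxe, map_neg, hve]; linarith
    · obtain ⟨r, hr, hr2⟩ := a.exists_small h2 v
      refine ⟨x + r • v, fun i hi => ?_, hr2, ?_⟩
      · rw [g_add, h1 i (mem_insert_of_mem hi), hvS i hi]; ring
      · rw [g_add, hxe, hve]; linarith
  -- recession cones
  have r1 : a.RT S E τ → a.RT S (insert e E) τ := by
    rw [a.RT_minus_iff heE heτ]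
    exact fun h y h1 h2 _ => h y h1 h2
  have r2 : a.RT S E τ → a.RT S (insert e E) (insert e τ) := by
    rw [a.RT_plus_iff heE]
    exact fun h y h1 h2 _ => h y h1 h2
  have r3 : a.RT S (insert e E) τ → a.RT (insert e S) E τ := by
    rw [a.RT_minus_iff heE heτ]
    intro h y h1 h2
    exact h y (fun i hi => h1 i (mem_insert_of_mem hi)) h2 (h1 e (mem_insert_self _ _)).le
  have r4 : a.RT S (insert e E) (insert e τ) → a.RT (insert e S) E τ := by
    rw [a.RT_plus_iff heE]
    intro h y h1 h2
    exact h y (fun i hi => h1 i (mem_insert_of_mem hi)) h2 (h1 e (mem_insert_self _ _)).ge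
  have r5 : a.RT S (insert e E) τ → a.RT S (insert e E) (insert e τ) → a.RT S E τ := by
    rw [a.RT_minus_iff heE heτ, a.RT_plus_iff heE]
    intro h h' y h1 h2
    rcases le_total (a.A e y) 0 with h3 | h3
    · exact h y h1 h2 h3
    · exact h' y h1 h2 h3
  have r6 : a.RT (insert e S) E τ → ¬ a.RT S (insert e E) τ →
      ¬ a.RT S (insert e E) (insert e τ) → False := by
    rw [a.RT_minus_iff heE heτ, a.RT_plus_iff heE]
    intro h hm hp
    push Not at hm hp
    obtain ⟨y, y1, y2, y3, y4⟩ := hm
    obtain ⟨z, z1, z2, z3, z4⟩ := hp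
    -- the combination parallel to `g e = 0`
    have hw : (a.A e z) • y + (- a.A e y) • z = 0 := by
      apply h
      · intro i hi
        rcases mem_insert.1 hi with rfl | hi
        · simp only [map_add, map_smul, smul_eq_mul]; ring
        · simp only [map_add, map_smul, smul_eq_mul, y1 i hi, z1 i hi]; ring
      · intro i hi
        have e1 := mul_nonneg z3 (y2 i hi)
        have e2 := mul_nonneg (by linarith : 0 ≤ - a.A e y) (z2 i hi)
        simp only [map_add, map_smul, smul_eq_mul]
        nlinarith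
    rcases y3.lt_or_eq with y5 | y5
    · -- `y` strictly negative, so `z` is a negative multiple of `y`
      have key : ∀ i ∈ S ∪ E, a.A i z = 0 := by
        intro i hi
        rcases mem_union.1 hi with hi | hi
        · exact z1 i hi
        · have e0 := congrArg (fun w => a.A i w) hw
          simp only [map_add, map_smul, smul_eq_mul, map_zero] at e0
          have e1 := mul_nonneg z3 (y2 i hi)
          have e2 := mul_nonneg (by linarith : 0 ≤ - a.A e y) (z2 i hi)
          have e3 : a.A e z * (sg τ i * a.A i y) + - a.A e y * (sg τ i * a.A i z) = 0 := by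
            have : a.A e z * (sg τ i * a.A i y) + - a.A e y * (sg τ i * a.A i z) =
              sg τ i * (a.A e z * a.A i y + - a.A e y * a.A i z) := by ring
            rw [this, e0, mul_zero]
          have e4 : - a.A e y * (sg τ i * a.A i z) = 0 := by linarith
          have e5 : sg τ i * a.A i z = 0 := by
            rcases mul_eq_zero.1 e4 with h' | h'
            · linarith
            · exact h'
          have e6 : a.A i z = sg τ i * (sg τ i * a.A i z) := by
            rw [← mul_assoc, sg_mul_self, one_mul]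
          rw [e6, e5, mul_zero]
      exact z4 (a.zero_of hdE key)
    · -- `y` is parallel to `g e = 0`
      apply y4
      apply h y _ y2
      intro i hi
      rcases mem_insert.1 hi with rfl | hi
      · exact y5
      · exact y1 i hi
  -- if the hyperplane misses the cell
  have q1 : ¬ a.NE (insert e S) E τ → a.NE S (insert e E) τ →
      a.RT S (insert e E) τ → a.RT S E τ := by
    intro hN hm hR
    rw [a.NE_minus_iff heE heτ] at hm
    rw [a.RT_minus_iff heE heτ] at hR
    obtain ⟨x, x1, x2, x3⟩ := hm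
    intro y y1 y2
    by_contra hy
    have h3 : ¬ a.A e y ≤ 0 := fun h => hy (hR y y1 y2 h)
    push Not at h3
    apply hN
    -- go far in direction `y`
    have ht : 0 < (1 - a.g e x) / a.A e y := div_pos (by linarith) h3
    refine a.cross (x := x + ((1 - a.g e x) / a.A e y) • y) (y := x) ?_ ?_ x1 x2 ?_ x3
    · intro i hi
      rw [g_add, x1 i hi, y1 i hi]; ring
    · intro i hi
      rw [g_add]
      have := mul_nonneg ht.le (y2 i hi)
      have := x2 i hi
      nlinarith
    · rw [g_add, div_mul_cancel₀ _ h3.ne']; linarith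
  have q2 : ¬ a.NE (insert e S) E τ → a.NE S (insert e E) (insert e τ) →
      a.RT S (insert e E) (insert e τ) → a.RT S E τ := by
    intro hN hm hR
    rw [a.NE_plus_iff heE] at hm
    rw [a.RT_plus_iff heE] at hR
    obtain ⟨x, x1, x2, x3⟩ := hm
    intro y y1 y2
    by_contra hy
    have h3 : ¬ 0 ≤ a.A e y := fun h => hy (hR y y1 y2 h)
    push Not at h3
    apply hN
    have ht : 0 < (1 + a.g e x) / (- a.A e y) := div_pos (by linarith) (by linarith)
    refine a.cross (x := x) (y := x + ((1 + a.g e x) / (- a.A e y)) • y) x1 x2 ?_ ?_ x3 ?_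
    · intro i hi
      rw [g_add, x1 i hi, y1 i hi]; ring
    · intro i hi
      rw [g_add]
      have := mul_nonneg ht.le (y2 i hi)
      have := x2 i hi
      nlinarith
    · have h4 : (1 + a.g e x) / (- a.A e y) * a.A e y = - (1 + a.g e x) := by
        have : a.A e y ≠ 0 := h3.ne
        field_simp
      rw [g_add, h4]; linarith
  by_cases c1 : a.NE S (insert e E) τ <;> by_cases c2 : a.NE S (insert e E) (insert e τ) <;>
  by_cases c3 : a.NE S E τ <;> by_cases c4 : a.NE (insert e S) E τ <;>
  by_cases c5 : a.RT S (insert e E) τ <;> by_cases c6 : a.RT S (insert e E) (insert e τ) <;>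
  by_cases c7 : a.RT S E τ <;> by_cases c8 : a.RT (insert e S) E τ <;>
  simp_all

end step

lemma bc_step {S E : Finset ι} {e : ι} (heE : e ∉ E) (heS : e ∉ S) (hSd : S.card + 1 ≤ d)
    (hdE : d ≤ (S ∪ E).card) : a.bc S (insert e E) = a.bc S E + a.bc (insert e S) E := by
  classical
  unfold bc
  simp only [card_filter]
  rw [sum_powerset_insert heE, ← sum_add_distrib, ← sum_add_distrib]
  apply sum_congr rfl
  intro τ hτ
  exact a.step_count heE heS (fun h => heE ((mem_powerset.1 hτ) h)) hSd hdE

lemma bc_zero {S E : Finset ι} (hdisj : Disjoint S E) (hE : E.Nonempty) (hcard : S.card + E.card = d) :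
    a.bc S E = 0 := by
  classical
  unfold bc
  rw [card_eq_zero, filter_eq_empty_iff]
  rintro τ _ ⟨_, hR⟩
  obtain ⟨y, hy⟩ := a.solve (s := S ∪ E) (by rw [card_union_of_disjoint hdisj, hcard])
    (fun i => if i ∈ S then 0 else sg τ i)
  obtain ⟨i, hi⟩ := hE
  have hiS : i ∉ S := fun h => (disjoint_left.1 hdisj) h hi
  have h0 : y = 0 := by
    apply hR
    · intro j hj
      have := hy j (mem_union_left _ hj)
      simpa [hj] using this
    · intro j hj
      have hjS : j ∉ S := fun h => (disjoint_left.1 hdisj) h hj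
      have := hy j (mem_union_right _ hj)
      rw [if_neg hjS] at this
      rw [this, sg_mul_self]
      norm_num
  have h1 := hy i (mem_union_right _ hi)
  rw [if_neg hiS, h0, map_zero] at h1
  have h2 := sg_mul_self τ i
  rw [← h1] at h2
  norm_num at h2

lemma bc_one {S E : Finset ι} (hdisj : Disjoint S E) (hS : S.card = d) : a.bc S E = 1 := by
  classical
  unfold bc
  obtain ⟨x, hx⟩ := a.solve hS.le (fun i => - a.c i)
  have hx0 : ∀ i ∈ S, a.g i x = 0 := by
    intro i hi; unfold g; rw [hx i hi]; ring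
  have huniq : ∀ y, (∀ i ∈ S, a.g i y = 0) → y = x := by
    intro y hy
    have : y - x = 0 := by
      apply a.zero_of hS.ge
      intro i hi
      have h1 := hy i hi
      have h2 := hx0 i hi
      unfold g at h1 h2
      rw [map_sub]; linarith
    exact sub_eq_zero.1 this
  have hne : ∀ i ∈ E, a.g i x ≠ 0 := by
    intro i hi h0
    have hiS : i ∉ S := fun h => (disjoint_left.1 hdisj) h hi
    apply a.gen (insert i S) (by rw [card_insert_of_notMem hiS, hS])
    refine ⟨x, fun j hj => ?_⟩
    rcases mem_insert.1 hj with rfl | hj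
    · exact h0
    · exact hx0 j hj
  rw [card_eq_one]
  refine ⟨E.filter (fun i => 0 < a.g i x), ?_⟩
  ext τ
  rw [mem_filter, mem_powerset, mem_singleton]
  constructor
  · rintro ⟨hτ, ⟨y, y1, y2⟩, _⟩
    rw [huniq y y1] at y2
    ext i
    rw [mem_filter]
    constructor
    · intro hi
      refine ⟨hτ hi, ?_⟩
      have := y2 i (hτ hi)
      unfold sg at this
      rw [if_pos hi] at this
      linarith
    · rintro ⟨hi, hpos⟩
      by_contra hiτ
      have := y2 i hi
      unfold sg at this
      rw [if_neg hiτ] at this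
      linarith
  · rintro rfl
    refine ⟨filter_subset _ _, ⟨x, hx0, fun i hi => ?_⟩, ?_⟩
    · unfold sg
      split_ifs with h
      · linarith [(mem_filter.1 h).2]
      · have h1 := hne i hi
        have h2 : ¬ 0 < a.g i x := fun h' => h (mem_filter.2 ⟨hi, h'⟩)
        have h3 : a.g i x < 0 := lt_of_le_of_ne (not_lt.1 h2) h1
        linarith
    · intro y y1 _
      exact a.zero_of hS.ge y1

/-- The number of bounded cells. -/
theorem bc_eq (E : Finset ι) : ∀ S : Finset ι, Disjoint S E → S.card ≤ d → d ≤ S.card + E.card →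
    a.bc S E = (E.card - 1).choose (d - S.card) := by
  induction E using Finset.induction_on with
  | empty =>
    intro S hS h1 h2
    rw [card_empty, add_zero] at h2
    have hd : S.card = d := le_antisymm h1 h2
    rw [a.bc_one hS hd, hd]
    simp
  | insert e E heE ih =>
    intro S hS h1 h2
    rw [disjoint_insert_right] at hS
    obtain ⟨heS, hSE⟩ := hS
    rw [card_insert_of_notMem heE] at h2 ⊢
    rcases h1.lt_or_eq with hlt | heq
    · rcases h2.lt_or_eq with hlt2 | heq2
      · have hE : 0 < E.card := by omega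
        rw [a.bc_step heE heS hlt (by rw [card_union_of_disjoint hSE]; omega),
          ih S hSE h1 (by omega), ih (insert e S) (by
            rw [disjoint_insert_left]; exact ⟨heE, hSE⟩) (by
            rw [card_insert_of_notMem heS]; omega) (by
            rw [card_insert_of_notMem heS]; omega), card_insert_of_notMem heS]
        obtain ⟨m, hm⟩ : ∃ m, E.card = m + 1 := ⟨E.card - 1, by omega⟩
        obtain ⟨k, hk⟩ : ∃ k, d - S.card = k + 1 := ⟨d - S.card - 1, by omega⟩
        have hk' : d - (S.card + 1) = k := by omega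
        rw [hm, hk, hk']
        simp only [Nat.add_sub_cancel]
        rw [Nat.choose_succ_succ]; ring
      · rw [a.bc_zero (by rw [disjoint_insert_right]; exact ⟨heS, hSE⟩) ⟨e, mem_insert_self _ _⟩
          (by rw [card_insert_of_notMem heE]; exact heq2.symm)]
        symm
        apply Nat.choose_eq_zero_of_lt
        omega
    · rw [a.bc_one (by rw [disjoint_insert_right]; exact ⟨heS, hSE⟩) heq, heq]
      simp

end Arr

end Pool.Agent.helper87.ArrD3
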