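import Pool.Agent.helper87.ArrD3.Main

/-!
# The average diameter of the bounded cells of a simple arrangement in dimension three

The statement is the frozen statement `S07135` with `d = 3`: for every simple arrangement of
`n ≥ 4` planes in `ℝ³` the average diameter of the bounded cells is at most `3`.

Idea of the proof. The sign vectors of the bounded cells form a family of `C(n-1,3)` subsets of
the `n` planes which shatters no four of them. Down-shifting does not decrease the number of
pairs of neighbours in such a family and leads to a simplicial complex with faces of size at most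
three, for which this number is at most `(n-2) C(n-2,2)`. Together with the count of the bounded
two-dimensional cells (deletion and restriction) it follows that the bounded cells have at most
six facets on average. A simple 3-polytope with `f` facets has at most `2f-4` vertices and its
graph is 3-connected, so its diameter is at most `(2f-3)/3`.
-/

set_option autoImplicit false

namespace Pool.Agent.helper87.ArrD3.DimThree

open scoped Classical in
/-- For every simple arrangement of `n > 3` planes `{x | ∑ j, a i j * x j = b i}` in `ℝ³` (every
three planes meet in exactly one point and no four have a common point), the sum of the graph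
diameters of the bounded cells is at most `3` times the number of bounded cells. -/
theorem result (n : ℕ) (hn : 3 < n)
    (a : Fin n → Fin 3 → ℝ) (b : Fin n → ℝ)
    (h1 : ∀ s : Finset (Fin n), s.card = 3 →
        ∃! x : Fin 3 → ℝ, ∀ i ∈ s, ∑ j, a i j * x j = b i)
    (h2 : ∀ s : Finset (Fin n), s.card = 3 + 1 →
        ¬ ∃ x : Fin 3 → ℝ, ∀ i ∈ s, ∑ j, a i j * x j = b i)
    (C P : Finset (Fin n) → Set (Fin 3 → ℝ))
    (hC : ∀ S, C S = {x | ∀ i, (i ∈ S → b i < ∑ j, a i j * x j) ∧
                          (i ∉ S → ∑ j, a i j * x j < b i)})
    (hP : ∀ S, P S = {x | ∀ i, (i ∈ S → b i ≤ ∑ j, a i j * x j) ∧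
                          (i ∉ S → ∑ j, a i j * x j ≤ b i)}) :
    (∑ S ∈ Finset.univ.filter
          (fun S : Finset (Fin n) => (C S).Nonempty ∧ Bornology.IsBounded (C S)),
        (SimpleGraph.fromRel
          (fun v w : Set.extremePoints ℝ (P S) =>
            IsExtreme ℝ (P S) (segment ℝ (v : Fin 3 → ℝ) (w : Fin 3 → ℝ)))).diam)
      ≤ 3 * (Finset.univ.filter
          (fun S : Finset (Fin n) => (C S).Nonempty ∧ Bornology.IsBounded (C S))).card :=
  Pool.Agent.helper87.ArrD3.avg_diam_three n hn a b h1 h2 C P hC hP

end Pool.Agent.helper87.ArrD3.DimThree
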