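import Mathlib

set_option autoImplicit false

/-!
# Edges of set families of VC dimension at most 3, by down-shifting
-/

namespace Pool.Agent.helper87.ArrD3

open Finset

variable {ι : Type} [Fintype ι] [DecidableEq ι]

/-- `F` shatters `s` -/
def Sh (F : Finset (Finset ι)) (s : Finset ι) : Prop := ∀ t ⊆ s, ∃ u ∈ F, s ∩ u = t

/-- number of edges of the one-inclusion graph -/
def ed (F : Finset (Finset ι)) : ℕ := ∑ i, (F.filter (fun σ => i ∈ σ ∧ σ.erase i ∈ F)).card

/-- down-compression -/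
def comp (a : ι) (F : Finset (Finset ι)) : Finset (Finset ι) :=
  univ.filter (fun σ => (a ∈ σ ∧ σ ∈ F ∧ σ.erase a ∈ F) ∨ (a ∉ σ ∧ (σ ∈ F ∨ insert a σ ∈ F)))

lemma mem_comp_of_notMem {a : ι} {F : Finset (Finset ι)} {σ : Finset ι} (h : a ∉ σ) :
    σ ∈ comp a F ↔ σ ∈ F ∨ insert a σ ∈ F := by
  simp [comp, h]

lemma mem_comp_insert {a : ι} {F : Finset (Finset ι)} {σ : Finset ι} (h : a ∉ σ) :
    insert a σ ∈ comp a F ↔ insert a σ ∈ F ∧ σ ∈ F := by
  simp [comp, h]

lemma sum_pair (a : ι) (f : Finset ι → ℕ) :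
    ∑ σ, f σ = ∑ σ ∈ (univ.erase a).powerset, (f σ + f (insert a σ)) := by
  have h1 : (univ : Finset (Finset ι)) = (insert a (univ.erase a)).powerset := by
    rw [insert_erase (mem_univ a)]
    ext σ; simp
  rw [h1, sum_powerset_insert (notMem_erase a univ), sum_add_distrib]

lemma notMem_of_mem {a : ι} {σ : Finset ι} (h : σ ∈ (univ.erase a).powerset) : a ∉ σ := by
  rw [mem_powerset] at h
  exact fun h' => (mem_erase.1 (h h')).1 rfl

lemma card_pair (a : ι) (F : Finset (Finset ι)) :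
    F.card = ∑ σ ∈ (univ.erase a).powerset,
      ((if σ ∈ F then 1 else 0) + (if insert a σ ∈ F then 1 else 0)) := by
  rw [← sum_pair a (fun σ => if σ ∈ F then 1 else 0)]
  simp

lemma card_comp (a : ι) (F : Finset (Finset ι)) : (comp a F).card = F.card := by
  rw [card_pair a, card_pair a F]
  apply sum_congr rfl
  intro σ hσ
  have h := notMem_of_mem hσ
  simp only [mem_comp_of_notMem h, mem_comp_insert h]
  by_cases h1 : σ ∈ F <;> by_cases h2 : insert a σ ∈ F <;> simp [h1, h2]

lemma ed_comp (a : ι) (F : Finset (Finset ι)) : ed F ≤ ed (comp a F) := by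
  unfold ed
  apply sum_le_sum
  intro i _
  have key : ∀ F : Finset (Finset ι), (F.filter (fun σ => i ∈ σ ∧ σ.erase i ∈ F)).card =
      ∑ σ ∈ (univ.erase a).powerset,
        ((if σ ∈ F ∧ i ∈ σ ∧ σ.erase i ∈ F then 1 else 0) +
        (if insert a σ ∈ F ∧ i ∈ insert a σ ∧ (insert a σ).erase i ∈ F then 1 else 0)) := by
    intro F
    rw [← sum_pair a (fun σ => if σ ∈ F ∧ i ∈ σ ∧ σ.erase i ∈ F then 1 else 0), card_filter,
      ← sum_filter_add_sum_filter_not univ (fun σ => σ ∈ F)]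
    have h0 : ∑ σ ∈ univ.filter (fun σ => ¬ σ ∈ F),
        (if σ ∈ F ∧ i ∈ σ ∧ σ.erase i ∈ F then 1 else 0) = 0 := by
      apply sum_eq_zero
      intro σ hσ
      rw [mem_filter] at hσ
      simp [hσ.2]
    rw [h0, add_zero]
    have h1 : univ.filter (fun σ => σ ∈ F) = F := by ext; simp
    rw [h1]
    apply sum_congr rfl
    intro σ hσ
    simp [hσ]
  rw [key, key]
  apply sum_le_sum
  intro σ hσ
  have h := notMem_of_mem hσ
  by_cases hia : i = a
  · subst hia
    simp only [mem_comp_of_notMem h, mem_comp_insert h, h, erase_insert h, mem_insert_self,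
      false_and, and_false, if_false, true_and]
    by_cases h1 : σ ∈ F <;> by_cases h2 : insert i σ ∈ F <;> simp [h1, h2]
  · have hia' : a ≠ i := fun h => hia h.symm
    by_cases hi : i ∈ σ
    · have h3 : (insert a σ).erase i = insert a (σ.erase i) := erase_insert_of_ne hia'
      have h4 : a ∉ σ.erase i := fun h' => h (mem_of_mem_erase h')
      rw [h3]
      simp only [mem_comp_of_notMem h, mem_comp_insert h, mem_comp_of_notMem h4,
        mem_comp_insert h4, hi, mem_insert_of_mem hi, true_and]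
      by_cases h1 : σ ∈ F <;> by_cases h2 : insert a σ ∈ F <;>
      by_cases h5 : σ.erase i ∈ F <;> by_cases h6 : insert a (σ.erase i) ∈ F <;>
      simp [h1, h2, h5, h6]
    · have h5 : i ∉ insert a σ := by
        rw [mem_insert]; push Not; exact ⟨hia, hi⟩
      simp [hi, h5]

/-- total size -/
def wt (F : Finset (Finset ι)) : ℕ := ∑ σ ∈ F, σ.card

lemma wt_comp {a : ι} {F : Finset (Finset ι)} {ρ : Finset ι} (ha : a ∈ ρ) (hρ : ρ ∈ F)
    (hρ' : ρ.erase a ∉ F) : wt (comp a F) < wt F := by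
  have key : ∀ F : Finset (Finset ι), wt F = ∑ σ ∈ (univ.erase a).powerset,
      ((if σ ∈ F then σ.card else 0) + (if insert a σ ∈ F then (insert a σ).card else 0)) := by
    intro F
    rw [← sum_pair a (fun σ => if σ ∈ F then σ.card else 0)]
    unfold wt
    rw [← sum_filter]
    congr 1
    ext; simp
  rw [key, key]
  apply sum_lt_sum
  · intro σ hσ
    have h := notMem_of_mem hσ
    simp only [mem_comp_of_notMem h, mem_comp_insert h, card_insert_of_notMem h]
    by_cases h1 : σ ∈ F <;> by_cases h2 : insert a σ ∈ F <;> simp [h1, h2]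
  · refine ⟨ρ.erase a, ?_, ?_⟩
    · rw [mem_powerset]
      exact erase_subset_erase _ (subset_univ _)
    · have h : a ∉ ρ.erase a := notMem_erase _ _
      simp only [mem_comp_of_notMem h, mem_comp_insert h, card_insert_of_notMem h]
      rw [insert_erase ha]
      simp [hρ, hρ']

lemma sh_comp {a : ι} {F : Finset (Finset ι)} {s : Finset ι} (h : Sh (comp a F) s) : Sh F s := by
  intro t ht
  by_cases has : a ∈ s
  · -- realise `insert a t`
    obtain ⟨u, hu, hut⟩ := h (insert a t) (insert_subset has ht)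
    have hau : a ∈ u := by
      have : a ∈ s ∩ u := by rw [hut]; exact mem_insert_self _ _
      exact (mem_inter.1 this).2
    have h1 : insert a (u.erase a) = u := insert_erase hau
    rw [← h1, mem_comp_insert (notMem_erase a u), h1] at hu
    by_cases hat : a ∈ t
    · refine ⟨u, hu.1, ?_⟩
      rw [hut, insert_eq_self.2 hat]
    · refine ⟨u.erase a, hu.2, ?_⟩
      rw [inter_erase, hut, erase_insert hat]
  · obtain ⟨u, hu, hut⟩ := h t ht
    by_cases hau : a ∈ u
    · have h1 : insert a (u.erase a) = u := insert_erase hau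
      rw [← h1, mem_comp_insert (notMem_erase a u), h1] at hu
      exact ⟨u, hu.1, hut⟩
    · rw [mem_comp_of_notMem hau] at hu
      rcases hu with hu | hu
      · exact ⟨u, hu, hut⟩
      · refine ⟨insert a u, hu, ?_⟩
        rw [inter_insert_of_notMem has, hut]

lemma exists_lower (N : ℕ) : ∀ F : Finset (Finset ι), wt F = N → ∃ D : Finset (Finset ι),
    (∀ σ ∈ D, ∀ a ∈ σ, σ.erase a ∈ D) ∧ D.card = F.card ∧ ed F ≤ ed D ∧ ∀ s, Sh D s → Sh F s := by
  induction N using Nat.strong_induction_on with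
  | _ N ih =>
    intro F hF
    by_cases hst : ∀ σ ∈ F, ∀ a ∈ σ, σ.erase a ∈ F
    · exact ⟨F, hst, rfl, le_rfl, fun _ h => h⟩
    · push Not at hst
      obtain ⟨ρ, hρ, a, ha, hρ'⟩ := hst
      obtain ⟨D, h1, h2, h3, h4⟩ := ih (wt (comp a F)) (by rw [← hF]; exact wt_comp ha hρ hρ')
        (comp a F) rfl
      exact ⟨D, h1, by rw [h2, card_comp], (ed_comp a F).trans h3, fun s hs => sh_comp (h4 s hs)⟩

omit [Fintype ι] in
lemma lower_of_stable {D : Finset (Finset ι)} (h : ∀ σ ∈ D, ∀ a ∈ σ, σ.erase a ∈ D) :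
    ∀ k : ℕ, ∀ σ ∈ D, σ.card = k → ∀ τ ⊆ σ, τ ∈ D := by
  intro k
  induction k with
  | zero =>
    intro σ hσ hk τ hτ
    rw [card_eq_zero] at hk
    rw [hk, subset_empty] at hτ
    rw [hτ, ← hk]; exact hσ
  | succ k ih =>
    intro σ hσ hk τ hτ
    by_cases hst : σ ⊆ τ
    · rw [subset_antisymm hτ hst]; exact hσ
    · rw [not_subset] at hst
      obtain ⟨a, ha, haτ⟩ := hst
      refine ih (σ.erase a) (h σ hσ a ha) (by rw [card_erase_of_mem ha, hk]; rfl) τ ?_
      exact subset_erase.2 ⟨hτ, haτ⟩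

/-- The numerical heart: a simplicial complex with faces of size at most 3 and
`C(n-1,3)` faces has total face size at most `(n-2) C(n-2,2)`. -/
lemma ed_lower {D : Finset (Finset ι)} (h : ∀ σ ∈ D, ∀ a ∈ σ, σ.erase a ∈ D)
    (h3 : ∀ σ ∈ D, σ.card ≤ 3) {m : ℕ} (hm : Fintype.card ι = m + 2) (hm2 : 2 ≤ m)
    (hcard : D.card = (m + 1).choose 3) : ed D ≤ m * m.choose 2 := by
  have hlow : ∀ σ ∈ D, ∀ τ ⊆ σ, τ ∈ D := fun σ hσ τ hτ => lower_of_stable h _ σ hσ rfl τ hτ
  have hed : ed D = ∑ σ ∈ D, σ.card := by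
    unfold ed
    have h1 : ∀ i : ι, (D.filter (fun σ => i ∈ σ ∧ σ.erase i ∈ D)).card =
        ∑ σ ∈ D, if i ∈ σ then 1 else 0 := by
      intro i
      rw [← card_filter]
      congr 1
      apply filter_congr
      intro σ hσ
      exact ⟨fun h => h.1, fun hi => ⟨hi, h σ hσ i hi⟩⟩
    rw [sum_congr rfl (fun i _ => h1 i), sum_comm]
    apply sum_congr rfl
    intro σ _
    simp
  set f0 := (D.filter (fun σ => σ.card = 0)).card with hf0
  set f1 := (D.filter (fun σ => σ.card = 1)).card with hf1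
  set f2 := (D.filter (fun σ => σ.card = 2)).card with hf2
  set f3 := (D.filter (fun σ => σ.card = 3)).card with hf3
  have hsum : D.card = f0 + f1 + f2 + f3 := by
    rw [hf0, hf1, hf2, hf3]
    simp only [card_filter]
    rw [← sum_add_distrib, ← sum_add_distrib, ← sum_add_distrib, card_eq_sum_ones]
    apply sum_congr rfl
    intro σ hσ
    have := h3 σ hσ
    interval_cases hc : σ.card <;> simp
  have hsum2 : ∑ σ ∈ D, σ.card = f1 + 2 * f2 + 3 * f3 := by
    rw [hf1, hf2, hf3]
    simp only [card_filter]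
    rw [mul_sum, mul_sum, ← sum_add_distrib, ← sum_add_distrib]
    apply sum_congr rfl
    intro σ hσ
    have := h3 σ hσ
    interval_cases hc : σ.card <;> simp
  -- the empty face
  have hDne : D.Nonempty := by
    rw [← card_pos, hcard]
    exact Nat.choose_pos (by omega)
  have hf0' : f0 = 1 := by
    obtain ⟨σ, hσ⟩ := hDne
    rw [hf0, card_eq_one]
    refine ⟨∅, ?_⟩
    ext τ
    rw [mem_filter, mem_singleton, card_eq_zero]
    exact ⟨fun h => h.2, fun h => ⟨h ▸ hlow σ hσ ∅ (empty_subset _), h⟩⟩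
  -- vertices
  set W : Finset ι := univ.filter (fun v => ({v} : Finset ι) ∈ D) with hW
  have hWc : W.card = f1 := by
    rw [hf1]
    apply card_bij (fun v _ => ({v} : Finset ι))
    · intro v hv
      rw [hW, mem_filter] at hv
      rw [mem_filter]
      exact ⟨hv.2, card_singleton v⟩
    · intro v _ w _ hvw
      exact singleton_injective hvw
    · intro σ hσ
      rw [mem_filter] at hσ
      obtain ⟨v, rfl⟩ := card_eq_one.1 hσ.2
      refine ⟨v, ?_, rfl⟩
      rw [hW, mem_filter]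
      exact ⟨mem_univ _, hσ.1⟩
  have hsubW : ∀ σ ∈ D, σ ⊆ W := by
    intro σ hσ v hv
    rw [hW, mem_filter]
    exact ⟨mem_univ _, hlow σ hσ {v} (singleton_subset_iff.2 hv)⟩
  have hx : f1 ≤ m + 2 := by
    rw [← hWc, ← hm]; exact card_le_univ _
  have hf2x : 0 < f2 → 2 ≤ f1 := by
    intro hpos
    rw [hf2, card_pos] at hpos
    obtain ⟨σ, hσ⟩ := hpos
    rw [mem_filter] at hσ
    rw [← hWc, ← hσ.2]
    exact card_le_card (hsubW σ hσ.1)
  have hf3' : f3 * 3 ≤ f2 * (f1 - 2) := by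
    rw [hf3, hf2]
    apply card_mul_le_card_mul (fun σ τ : Finset ι => τ ⊆ σ)
    · intro σ hσ
      rw [mem_filter] at hσ
      have h1 : (powersetCard 2 σ).card = 3 := by
        rw [card_powersetCard, hσ.2]; rfl
      rw [← h1]
      apply card_le_card
      intro τ hτ
      rw [mem_powersetCard] at hτ
      rw [bipartiteAbove, mem_filter, mem_filter]
      exact ⟨⟨hlow σ hσ.1 τ hτ.1, hτ.2⟩, hτ.1⟩
    · intro τ hτ
      rw [mem_filter] at hτ
      have h1 : (W \ τ).card = f1 - 2 := by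
        rw [card_sdiff_of_subset (hsubW τ hτ.1), hWc, hτ.2]
      rw [← h1]
      apply card_le_card_of_surjOn (fun v => insert v τ)
      intro σ hσ
      have hσ' : σ ∈ bipartiteBelow (fun σ τ : Finset ι => τ ⊆ σ)
        (D.filter (fun σ => σ.card = 3)) τ := hσ
      rw [bipartiteBelow, mem_filter, mem_filter] at hσ'
      obtain ⟨⟨h4, h5⟩, h6⟩ := hσ'
      have h7 : (σ \ τ).card = 1 := by
        rw [card_sdiff_of_subset h6, h5, hτ.2]
      obtain ⟨v, hv⟩ := card_eq_one.1 h7
      have hv' : v ∈ σ \ τ := by rw [hv]; exact mem_singleton_self v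
      rw [mem_sdiff] at hv'
      refine ⟨v, ?_, ?_⟩
      · rw [mem_coe, mem_sdiff]
        exact ⟨hsubW σ h4 hv'.1, hv'.2⟩
      · change insert v τ = σ
        rw [insert_eq, ← hv]
        exact sdiff_union_of_subset h6
  have hc3 : 3 * (m + 1).choose 3 = (m + 1) * m.choose 2 := by
    have h : (m + 1) * m.choose 2 = (m + 1).choose 3 * 3 := Nat.add_one_mul_choose_eq m 2
    omega
  have hc2 : 2 * m.choose 2 = m * (m - 1) := by
    obtain ⟨k, rfl⟩ : ∃ k, m = k + 1 := ⟨m - 1, by omega⟩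
    have h : (k + 1) * k.choose 1 = (k + 1).choose 2 * 2 := Nat.add_one_mul_choose_eq k 1
    rw [Nat.choose_one_right] at h
    simp only [Nat.add_sub_cancel]
    omega
  rw [hed, hsum2]
  rw [hsum, hf0'] at hcard
  -- arithmetic in `ℤ`
  set c := m.choose 2 with hcdef
  set T := (m + 1).choose 3 with hTdef
  have e1 : (3 * (T : ℤ)) = (m + 1) * c := by exact_mod_cast hc3
  have e2 : (1 + f1 + f2 + f3 : ℤ) = T := by exact_mod_cast hcard
  have e3 : (2 * (c : ℤ)) = m * (m - 1) := by
    have : ((m - 1 : ℕ) : ℤ) = (m : ℤ) - 1 := by omega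
    rw [← this]
    exact_mod_cast hc2
  have e4 : (3 * (f3 : ℤ)) ≤ f2 * (f1 - 2) := by
    rcases Nat.eq_zero_or_pos f2 with h0 | h0
    · rw [h0] at hf3' ⊢
      have : f3 = 0 := by omega
      rw [this]; simp
    · have h2 := hf2x h0
      have : ((f1 - 2 : ℕ) : ℤ) = (f1 : ℤ) - 2 := by omega
      rw [← this]
      have h5 : 3 * f3 ≤ f2 * (f1 - 2) := by omega
      exact_mod_cast h5
  have e5 : (f1 : ℤ) ≤ m + 2 := by exact_mod_cast hx
  have e6 : (2 : ℤ) ≤ m := by exact_mod_cast hm2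
  have e7 : (c : ℤ) ≤ 3 + 2 * f1 + f2 := by
    have hpos : (0 : ℤ) < f1 + 1 := by positivity
    have h8 : ((f1 : ℤ) + 1) * c ≤ (f1 + 1) * (3 + 2 * f1 + f2) := by
      have h9 : (0 : ℤ) ≤ (m - f1) * c + 2 * f1 * (f1 + 1) := by
        rcases le_or_gt (f1 : ℤ) m with h10 | h10
        · have : (0 : ℤ) ≤ (m - f1) * c := mul_nonneg (by linarith) (by positivity)
          positivity
        · have h11 : (f1 : ℤ) = m + 1 ∨ (f1 : ℤ) = m + 2 := by omega
          rcases h11 with h12 | h12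
          · rw [h12]; nlinarith
          · rw [h12]; nlinarith
      nlinarith
    exact le_of_mul_le_mul_left h8 hpos
  have e8 : (f1 : ℤ) + 2 * f2 + 3 * f3 ≤ m * c := by nlinarith
  exact_mod_cast e8

/-- **Edge bound**: a family of `C(n-1,3)` subsets of an `n`-set without shattered 4-sets has at
most `(n-2) C(n-2,2)` edges. -/
theorem ed_le {F : Finset (Finset ι)} {m : ℕ} (hm : Fintype.card ι = m + 2) (hm2 : 2 ≤ m)
    (hcard : F.card = (m + 1).choose 3) (hsh : ∀ s, Sh F s → s.card ≤ 3) :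
    ed F ≤ m * m.choose 2 := by
  obtain ⟨D, h1, h2, h4, h5⟩ := exists_lower _ F rfl
  refine h4.trans (ed_lower h1 (fun σ hσ => hsh σ (h5 σ ?_)) hm hm2 (h2.trans hcard))
  intro t ht
  exact ⟨t, lower_of_stable h1 _ σ hσ rfl t ht, inter_eq_right.2 ht⟩

end Pool.Agent.helper87.ArrD3
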