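import Pool.Agent.helper87.ArrD3.Count
import Pool.Agent.helper87.ArrD3.Shift

set_option autoImplicit false

/-!
# The average number of facets of the bounded cells of a simple arrangement in `ℝ^3` is at most 6
-/

namespace Pool.Agent.helper87.ArrD3

open Finset

namespace Arr

variable {ι : Type} [Fintype ι] [DecidableEq ι] {d : ℕ} (a : Arr ι d)

open Classical in
/-- sign vectors of the cells -/
noncomputable def cells : Finset (Finset ι) := univ.filter (fun τ => a.NE ∅ univ τ)

open Classical in
/-- sign vectors of the bounded cells -/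
noncomputable def bcells : Finset (Finset ι) :=
  univ.filter (fun τ => a.NE ∅ univ τ ∧ a.RT ∅ univ τ)

lemma mem_cells {τ : Finset ι} : τ ∈ a.cells ↔ a.NE ∅ univ τ := by simp [cells]

lemma mem_bcells {τ : Finset ι} : τ ∈ a.bcells ↔ a.NE ∅ univ τ ∧ a.RT ∅ univ τ := by
  simp [bcells]

lemma bcells_sub {τ : Finset ι} (h : τ ∈ a.bcells) : τ ∈ a.cells :=
  a.mem_cells.2 (a.mem_bcells.1 h).1

lemma card_bcells : a.bcells.card = (Fintype.card ι - 1).choose d := by
  classical
  have h := a.bc_eq univ ∅ (disjoint_empty_left _) (by simp) (by simpa using a.hcard)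
  unfold bc at h
  rw [card_empty, Nat.sub_zero, card_univ] at h
  rw [← h]
  congr 1

lemma bc_plane {i : ι} (hd : 1 ≤ d) : a.bc {i} (univ.erase i) =
    (Fintype.card ι - 2).choose (d - 1) := by
  have h1 := a.hcard
  have h := a.bc_eq (univ.erase i) {i} (by simp) (by simpa using hd) (by
    rw [card_singleton, card_erase_of_mem (mem_univ i), card_univ]; omega)
  rw [h, card_singleton, card_erase_of_mem (mem_univ i), card_univ, Nat.sub_sub]

/-- The sign vectors of an arrangement in `ℝ^d` do not shatter a set of size `d + 1`. -/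
lemma vc {s : Finset ι} (hs : Sh a.bcells s) : s.card ≤ d := by
  classical
  by_contra hcon
  push Not at hcon
  have hdep : ¬ LinearIndependent ℝ (fun i : s => (a.A i : Module.Dual ℝ (Fin d → ℝ))) := by
    intro hli
    have h1 := hli.fintype_card_le_finrank
    rw [Fintype.card_coe, Subspace.dual_finrank_eq, Module.finrank_fin_fun] at h1
    omega
  rw [Fintype.not_linearIndependent_iff] at hdep
  obtain ⟨l, hl, i0, hi0⟩ := hdep
  have hconst : ∀ x : Fin d → ℝ, ∑ i : s, l i * a.g i x = ∑ i : s, l i * a.c i := by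
    intro x
    have h1 := congrArg (fun f : Module.Dual ℝ (Fin d → ℝ) => f x) hl
    simp only [LinearMap.sum_apply, LinearMap.smul_apply, smul_eq_mul, LinearMap.zero_apply] at h1
    have h2 : ∑ i : s, l i * a.g i x = ∑ i : s, l i * a.A i x + ∑ i : s, l i * a.c i := by
      rw [← sum_add_distrib]
      apply sum_congr rfl
      intro i _
      unfold g; ring
    rw [h2, h1, zero_add]
  rcases le_total 0 (∑ i : s, l i * a.c i) with h | h
  · -- make all terms nonpositive
    obtain ⟨u, hu, hut⟩ := hs (s.filter (fun i => ∃ h : i ∈ s, l ⟨i, h⟩ < 0)) (filter_subset _ _)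
    obtain ⟨⟨x, _, hx⟩, _⟩ := a.mem_bcells.1 hu
    have hmem : ∀ i : s, (i : ι) ∈ u ↔ l i < 0 := by
      intro i
      have h1 : (i : ι) ∈ s ∩ u ↔ (i : ι) ∈ s.filter (fun i => ∃ h : i ∈ s, l ⟨i, h⟩ < 0) := by
        rw [hut]
      rw [mem_inter, mem_filter] at h1
      simp only [i.2, true_and, exists_true_left] at h1
      exact h1
    have hneg : ∑ i : s, l i * a.g i x < 0 := by
      apply sum_neg'
      · intro i _
        have h1 := hx i (mem_univ _)
        unfold sg at h1
        split_ifs at h1 with h2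
        · have h3 := (hmem i).1 h2
          nlinarith
        · have h3 : 0 ≤ l i := not_lt.1 (fun h => h2 ((hmem i).2 h))
          nlinarith
      · refine ⟨i0, mem_univ _, ?_⟩
        have h1 := hx i0 (mem_univ _)
        unfold sg at h1
        split_ifs at h1 with h2
        · have h3 := (hmem i0).1 h2
          nlinarith
        · have h3 : 0 < l i0 := lt_of_le_of_ne (not_lt.1 (fun h => h2 ((hmem i0).2 h))) (Ne.symm hi0)
          nlinarith
    rw [hconst] at hneg
    linarith
  · obtain ⟨u, hu, hut⟩ := hs (s.filter (fun i => ∃ h : i ∈ s, 0 < l ⟨i, h⟩)) (filter_subset _ _)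
    obtain ⟨⟨x, _, hx⟩, _⟩ := a.mem_bcells.1 hu
    have hmem : ∀ i : s, (i : ι) ∈ u ↔ 0 < l i := by
      intro i
      have h1 : (i : ι) ∈ s ∩ u ↔ (i : ι) ∈ s.filter (fun i => ∃ h : i ∈ s, 0 < l ⟨i, h⟩) := by
        rw [hut]
      rw [mem_inter, mem_filter] at h1
      simp only [i.2, true_and, exists_true_left] at h1
      exact h1
    have hpos : 0 < ∑ i : s, l i * a.g i x := by
      apply sum_pos'
      · intro i _
        have h1 := hx i (mem_univ _)
        unfold sg at h1
        split_ifs at h1 with h2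
        · have h3 := (hmem i).1 h2
          nlinarith
        · have h3 : l i ≤ 0 := not_lt.1 (fun h => h2 ((hmem i).2 h))
          nlinarith
      · refine ⟨i0, mem_univ _, ?_⟩
        have h1 := hx i0 (mem_univ _)
        unfold sg at h1
        split_ifs at h1 with h2
        · have h3 := (hmem i0).1 h2
          nlinarith
        · have h3 : l i0 < 0 := lt_of_le_of_ne (not_lt.1 (fun h => h2 ((hmem i0).2 h))) hi0
          nlinarith
    rw [hconst] at hpos
    linarith

/-- flipping one sign -/
def flip (i : ι) (σ : Finset ι) : Finset ι := if i ∈ σ then σ.erase i else insert i σ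

/-- number of cells adjacent to `σ` -/
noncomputable def deg (σ : Finset ι) : ℕ := (univ.filter (fun i => flip i σ ∈ a.cells)).card

/-- two adjacent cells, one of them bounded, have a bounded common wall -/
lemma wall {i : ι} {σ : Finset ι} (hσ : σ ∈ (univ.erase i).powerset) (h1 : σ ∈ a.cells)
    (h2 : insert i σ ∈ a.cells) (h3 : σ ∈ a.bcells ∨ insert i σ ∈ a.bcells) :
    a.NE {i} (univ.erase i) σ ∧ a.RT {i} (univ.erase i) σ := by
  have hi : i ∉ σ := notMem_of_mem hσ
  have hu : (univ : Finset ι) = insert i (univ.erase i) := (insert_erase (mem_univ i)).symm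
  have hiE : i ∉ univ.erase i := notMem_erase _ _
  rw [mem_cells, hu] at h1 h2
  rw [mem_bcells, mem_bcells, hu] at h3
  rw [a.NE_minus_iff hiE hi] at h1
  rw [a.NE_plus_iff hiE] at h2
  obtain ⟨x, _, x2, x3⟩ := h1
  obtain ⟨y, _, y2, y3⟩ := h2
  constructor
  · have := a.cross (S := ∅) (e := i) (by simp) y2 (by simp) x2 y3 x3
    simpa using this
  · intro z hz1 hz2
    have hz : a.A i z = 0 := hz1 i (mem_singleton_self i)
    rcases h3 with ⟨_, h4⟩ | ⟨_, h4⟩
    · rw [a.RT_minus_iff hiE hi] at h4
      exact h4 z (by simp) hz2 hz.le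
    · rw [a.RT_plus_iff hiE] at h4
      exact h4 z (by simp) hz2 hz.ge

/-- The total number of (bounded cell, neighbouring cell) pairs. -/
lemma sum_deg_le (hd : 1 ≤ d) : ∑ σ ∈ a.bcells, a.deg σ ≤
    ed a.bcells + Fintype.card ι * (Fintype.card ι - 2).choose (d - 1) := by
  classical
  have h1 : ∑ σ ∈ a.bcells, a.deg σ = ∑ i, ∑ σ ∈ a.bcells, if flip i σ ∈ a.cells then 1 else 0 := by
    rw [sum_comm]
    apply sum_congr rfl
    intro σ _
    unfold deg
    rw [card_filter]
  have h2 : Fintype.card ι * (Fintype.card ι - 2).choose (d - 1) =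
      ∑ i : ι, (Fintype.card ι - 2).choose (d - 1) := by
    rw [sum_const, card_univ, smul_eq_mul]
  rw [h1, h2]
  unfold ed
  rw [← sum_add_distrib]
  apply sum_le_sum
  intro i _
  rw [← a.bc_plane (i := i) hd]
  unfold bc
  have e1 : ∑ σ ∈ a.bcells, (if flip i σ ∈ a.cells then 1 else 0) =
      ∑ σ : Finset ι, if σ ∈ a.bcells ∧ flip i σ ∈ a.cells then 1 else 0 := by
    rw [← card_filter, ← card_filter]
    congr 1
    ext σ
    simp
  have e2 : (a.bcells.filter (fun σ => i ∈ σ ∧ σ.erase i ∈ a.bcells)).card =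
      ∑ σ : Finset ι, if σ ∈ a.bcells ∧ i ∈ σ ∧ σ.erase i ∈ a.bcells then 1 else 0 := by
    rw [← card_filter]
    congr 1
    ext σ
    simp
  rw [e1, e2, sum_pair i, sum_pair i (fun σ => if σ ∈ a.bcells ∧ i ∈ σ ∧ σ.erase i ∈ a.bcells then 1 else 0),
    card_filter, ← sum_add_distrib]
  apply sum_le_sum
  intro σ hσ
  have hi := notMem_of_mem hσ
  have f1 : flip i σ = insert i σ := by simp [flip, hi]
  have f2 : flip i (insert i σ) = σ := by simp [flip, hi]
  rw [f1, f2]
  simp only [hi, false_and, and_false, if_false, mem_insert_self, true_and, erase_insert hi,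
    zero_add]
  have hw := a.wall hσ
  have hb1 : σ ∈ a.bcells → σ ∈ a.cells := a.bcells_sub
  have hb2 : insert i σ ∈ a.bcells → insert i σ ∈ a.cells := a.bcells_sub
  by_cases c1 : σ ∈ a.bcells <;> by_cases c2 : insert i σ ∈ a.bcells <;>
  by_cases c3 : σ ∈ a.cells <;> by_cases c4 : insert i σ ∈ a.cells <;>
  simp_all

end Arr

/-- **The average number of facets of the bounded cells in `ℝ^3` is at most 6.** -/
theorem sum_deg_three {ι : Type} [Fintype ι] [DecidableEq ι] (a : Arr ι 3)
    (hn : 4 ≤ Fintype.card ι) : ∑ σ ∈ a.bcells, a.deg σ ≤ 6 * a.bcells.card := by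
  obtain ⟨m, hm⟩ : ∃ m, Fintype.card ι = m + 2 := ⟨Fintype.card ι - 2, by omega⟩
  have h1 := a.sum_deg_le (by norm_num)
  have hc : a.bcells.card = (m + 1).choose 3 := by
    rw [a.card_bcells, hm]; rfl
  have h2 := ed_le (F := a.bcells) hm (by omega) hc (fun s hs => a.vc hs)
  rw [hm] at h1
  simp only [Nat.add_sub_cancel] at h1
  have h3 : (m + 1) * m.choose 2 = (m + 1).choose 3 * 3 := Nat.add_one_mul_choose_eq m 2
  rw [hc]
  have h4 : (3 - 1 : ℕ) = 2 := rfl
  rw [h4] at h1
  nlinarith

end Pool.Agent.helper87.ArrD3
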