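import Pool.Agent.helper87.ArrD3.Graph
import Pool.Agent.helper87.ArrD3.Facets

set_option autoImplicit false

/-!
# Assembly
-/

namespace Pool.Agent.helper87.ArrD3

open Finset

namespace SP

variable {ι : Type} [Fintype ι] [DecidableEq ι] (p : SP ι)

lemma pt_mem_extreme {s : Finset ι} (hs : s ∈ p.Vx) : p.pt s ∈ Set.extremePoints ℝ p.P := by
  obtain ⟨h3, hP⟩ := p.mem_Vx.1 hs
  rw [mem_extremePoints]
  refine ⟨hP, fun x hx y hy hxy => ?_⟩
  obtain ⟨u, v, hu, hv, huv, hz⟩ := hxy
  have key : ∀ i ∈ s, p.g i x = 0 ∧ p.g i y = 0 := by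
    intro i hi
    have h1 : u * p.g i x + v * p.g i y = 0 := by
      have h2 := p.g_pt h3 hi
      rw [← hz] at h2
      unfold g at h2 ⊢
      simp only [map_add, map_smul, smul_eq_mul] at h2
      have h4 : p.c i = u * p.c i + v * p.c i := by rw [← add_mul, huv, one_mul]
      linarith
    have h2 := mul_nonneg hu.le (hx i)
    have h3 := mul_nonneg hv.le (hy i)
    have h4 : u * p.g i x = 0 := by linarith
    have h5 : v * p.g i y = 0 := by linarith
    exact ⟨(mul_eq_zero.1 h4).resolve_left hu.ne', (mul_eq_zero.1 h5).resolve_left hv.ne'⟩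
  exact ⟨p.pt_unique h3 fun i hi => (key i hi).1, p.pt_unique h3 fun i hi => (key i hi).2⟩

lemma exists_of_extreme {z : V} (hz : z ∈ Set.extremePoints ℝ p.P) : ∃ s ∈ p.Vx, p.pt s = z := by
  classical
  rw [mem_extremePoints] at hz
  obtain ⟨hzP, hz⟩ := hz
  set S := univ.filter (fun i => p.g i z = 0) with hS
  have hSc : 3 ≤ S.card := by
    by_contra hlt
    push Not at hlt
    obtain ⟨s, hSs, hs3⟩ := exists_superset_card_eq (s := S) (n := 3) (by omega) p.three
    have : ∃ k, k ∈ s ∧ k ∉ S := by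
      by_contra hcon
      push Not at hcon
      have := card_le_card (show s ⊆ S from hcon)
      omega
    obtain ⟨k, hks, hkS⟩ := this
    have hv0 := p.dv_ne_zero hs3 hks
    have hAv : ∀ i ∈ S, p.A i (p.dv s k) = 0 := by
      intro i hi
      rw [p.A_dv hs3 (hSs hi), if_neg (fun h : i = k => hkS (h ▸ hi))]
    -- move in both directions
    have hA : ∀ w : V, (∀ i ∈ S, p.A i w = 0) → ∀ᶠ r : ℝ in nhdsWithin 0 (Set.Ioi 0),
        z + r • w ∈ p.P := by
      intro w hw
      have h1 : ∀ᶠ r : ℝ in nhdsWithin 0 (Set.Ioi 0), ∀ i ∈ (univ : Finset ι), 0 ≤ p.g i (z + r • w) := by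
        rw [Filter.eventually_all_finset]
        intro i _
        by_cases hi : i ∈ S
        · refine Filter.Eventually.of_forall fun r => ?_
          rw [g_add, hw i hi, mul_zero, add_zero]
          exact hzP i
        · have hpos : 0 < p.g i z := by
            rcases (hzP i).lt_or_eq with h | h
            · exact h
            · exact absurd (by rw [hS]; simp [h.symm]) hi
          have hc1 : Continuous (fun r : ℝ => p.g i (z + r • w)) := by
            simp only [g_add]
            fun_prop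
          have h3 := (isOpen_lt continuous_const hc1).mem_nhds (x := (0 : ℝ)) (by simpa using hpos)
          exact Filter.mem_of_superset (mem_nhdsWithin_of_mem_nhds h3)
            (fun r hr => (show 0 < p.g i (z + r • w) from hr).le)
      exact h1.mono fun r hr i => hr i (mem_univ i)
    have h1 := hA _ hAv
    have h2 := hA (- p.dv s k) (fun i hi => by rw [map_neg, hAv i hi, neg_zero])
    have h3 : ∀ᶠ r : ℝ in nhdsWithin 0 (Set.Ioi 0), 0 < r := self_mem_nhdsWithin
    obtain ⟨r, ⟨hr1, hr2⟩, hr3⟩ := ((h1.and h2).and h3).exists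
    have h4 := hz _ hr1 _ hr2 ⟨1 / 2, 1 / 2, by norm_num, by norm_num, by norm_num, by
      ext j
      simp only [Pi.add_apply, Pi.smul_apply, smul_eq_mul, Pi.neg_apply]
      ring⟩
    have h5 : r • p.dv s k = 0 := by
      have := h4.1
      rwa [add_eq_left] at this
    rcases smul_eq_zero.1 h5 with h6 | h6
    · exact hr3.ne' h6
    · exact hv0 h6
  obtain ⟨s, hsS, hs3⟩ := exists_subset_card_eq hSc
  have h1 : z = p.pt s := p.pt_unique hs3 (fun i hi => (mem_filter.1 (hsS hi)).2)
  exact ⟨s, p.mem_Vx.2 ⟨hs3, by rw [← h1]; exact hzP⟩, h1.symm⟩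

lemma segment_extreme {s t : Finset ι} (hs : s ∈ p.Vx) (ht : t ∈ p.Vx) (h : Adj s t) :
    IsExtreme ℝ p.P (segment ℝ (p.pt s) (p.pt t)) := by
  classical
  obtain ⟨hs3, hsP⟩ := p.mem_Vx.1 hs
  obtain ⟨ht3, htP⟩ := p.mem_Vx.1 ht
  -- the two private planes
  have hks : ∃ k ∈ s, k ∉ t := by
    by_contra hcon
    push Not at hcon
    exact h.1 (eq_of_subset_of_card_le hcon (by omega))
  have hkt : ∃ k ∈ t, k ∉ s := by
    by_contra hcon
    push Not at hcon
    exact h.1 (eq_of_subset_of_card_le hcon (by omega)).symm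
  obtain ⟨k, hks, hkt'⟩ := hks
  obtain ⟨l, hlt, hls⟩ := hkt
  have hint : s ∩ t = s.erase k := by
    apply eq_of_subset_of_card_le
    · intro i hi
      rw [mem_inter] at hi
      rw [mem_erase]
      exact ⟨fun h' => hkt' (h' ▸ hi.2), hi.1⟩
    · rw [card_erase_of_mem hks, hs3]; exact h.2
  -- points of `P` on the line
  have key : ∀ x ∈ p.P, (∀ i ∈ s ∩ t, p.g i x = 0) → x ∈ segment ℝ (p.pt s) (p.pt t) := by
    intro x hx hx0
    have hk1 : 0 < p.g k (p.pt t) := p.pos_of_notMem ht hkt'
    set r := p.g k x / p.g k (p.pt t) with hr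
    -- `x = pt s + r (pt t - pt s)`
    have hxe : x = p.pt s + r • (p.pt t - p.pt s) := by
      refine (p.indep s hs3 (fun i => p.A i x)).unique (fun i _ => rfl) (fun i hi => ?_)
      have h1 : p.A i (p.pt t - p.pt s) = p.g i (p.pt t) := by
        have := p.g_pt hs3 hi
        unfold g at this ⊢
        rw [map_sub]; linarith
      rw [map_add, map_smul, smul_eq_mul, h1]
      have h2 : p.A i (p.pt s) = - p.c i := by
        have := p.g_pt hs3 hi
        unfold g at this
        linarith
      rw [h2]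
      by_cases hik : i = k
      · rw [hik, hr, div_mul_cancel₀ _ hk1.ne']
        unfold g; ring
      · have hi' : i ∈ s ∩ t := by rw [hint, mem_erase]; exact ⟨hik, hi⟩
        rw [p.g_pt ht3 (mem_inter.1 hi').2]
        have := hx0 i hi'
        unfold g at this
        linarith
    have hr0 : 0 ≤ r := div_nonneg (hx k) hk1.le
    have hr1 : r ≤ 1 := by
      have h1 : p.g l x = (1 - r) * p.g l (p.pt s) := by
        rw [hxe, g_add]
        have h2 : p.A l (p.pt t - p.pt s) = - p.g l (p.pt s) := by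
          have := p.g_pt ht3 hlt
          unfold g at this ⊢
          rw [map_sub]; linarith
        rw [h2]; ring
      have h2 := hx l
      have h3 : 0 < p.g l (p.pt s) := p.pos_of_notMem hs hls
      rw [h1] at h2
      by_contra h4
      push Not at h4
      have := mul_neg_of_neg_of_pos (by linarith : 1 - r < 0) h3
      linarith
    refine ⟨1 - r, r, by linarith, hr0, by ring, ?_⟩
    rw [hxe]
    ext j
    simp only [Pi.add_apply, Pi.smul_apply, smul_eq_mul, Pi.sub_apply]
    ring
  have hsub : segment ℝ (p.pt s) (p.pt t) ⊆ p.P := by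
    rintro x ⟨u, v, hu, hv, huv, rfl⟩ i
    have : p.g i (u • p.pt s + v • p.pt t) = u * p.g i (p.pt s) + v * p.g i (p.pt t) := by
      unfold g
      simp only [map_add, map_smul, smul_eq_mul]
      have h4 : p.c i = u * p.c i + v * p.c i := by rw [← add_mul, huv, one_mul]
      linarith
    rw [this]
    exact add_nonneg (mul_nonneg hu (hsP i)) (mul_nonneg hv (htP i))
  have hseg0 : ∀ x ∈ segment ℝ (p.pt s) (p.pt t), ∀ i ∈ s ∩ t, p.g i x = 0 := by
    rintro x ⟨u, v, hu, hv, huv, rfl⟩ i hi
    rw [mem_inter] at hi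
    have h1 := p.g_pt hs3 hi.1
    have h2 := p.g_pt ht3 hi.2
    unfold g at h1 h2 ⊢
    simp only [map_add, map_smul, smul_eq_mul]
    have h4 : p.c i = u * p.c i + v * p.c i := by rw [← add_mul, huv, one_mul]
    have h5 : p.A i (p.pt s) = - p.c i := by linarith
    have h6 : p.A i (p.pt t) = - p.c i := by linarith
    rw [h5, h6]; linarith
  have main : ∀ x ∈ p.P, ∀ y ∈ p.P, ∀ z ∈ segment ℝ (p.pt s) (p.pt t), z ∈ openSegment ℝ x y →
      x ∈ segment ℝ (p.pt s) (p.pt t) := by
    rintro x hx y hy z hz ⟨u, v, hu, hv, huv, rfl⟩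
    apply key x hx
    intro i hi
    have h1 := hseg0 _ hz i hi
    have h2 : u * p.g i x + v * p.g i y = 0 := by
      unfold g at h1 ⊢
      simp only [map_add, map_smul, smul_eq_mul] at h1
      have h4 : p.c i = u * p.c i + v * p.c i := by rw [← add_mul, huv, one_mul]
      linarith
    have h3 := mul_nonneg hu.le (hx i)
    have h4 := mul_nonneg hv.le (hy i)
    have h5 : u * p.g i x = 0 := by linarith
    exact (mul_eq_zero.1 h5).resolve_left hu.ne'
  exact ⟨hsub, fun x hx y hy z hz hzo => main x hx y hy z hz hzo⟩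

/-- the diameter of the polytope graph -/
theorem diam_le : 3 * (SimpleGraph.fromRel
    (fun v w : Set.extremePoints ℝ p.P =>
      IsExtreme ℝ p.P (segment ℝ (v : Fin 3 → ℝ) (w : Fin 3 → ℝ)))).diam + 3 ≤ 2 * p.Fc.card := by
  classical
  set H := SimpleGraph.fromRel
    (fun v w : Set.extremePoints ℝ p.P =>
      IsExtreme ℝ p.P (segment ℝ (v : Fin 3 → ℝ) (w : Fin 3 → ℝ))) with hH
  let f : {s // s ∈ p.Vx} → Set.extremePoints ℝ p.P := fun s => ⟨p.pt s.1, p.pt_mem_extreme s.2⟩
  have hadj : ∀ s t : {s // s ∈ p.Vx}, p.G.Adj s t → H.Adj (f s) (f t) := by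
    intro s t hst
    rw [hH, SimpleGraph.fromRel_adj]
    have h1 : Adj s.1 t.1 := hst
    refine ⟨?_, Or.inl (p.segment_extreme s.2 t.2 h1)⟩
    intro h
    apply h1.1
    exact p.pt_inj s.2 t.2 (congrArg Subtype.val h)
  let F : p.G →g H := ⟨f, fun {s t} h => hadj s t h⟩
  have hsurj : ∀ z : Set.extremePoints ℝ p.P, ∃ s, f s = z := by
    intro z
    obtain ⟨s, hs, h⟩ := p.exists_of_extreme z.2
    exact ⟨⟨s, hs⟩, Subtype.ext h⟩
  -- a bound for all distances
  set D := (2 * p.Fc.card - 3) / 3 with hD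
  have hV := p.card_Vx_le p.Vx_nonempty
  have hV' := p.Vx_nonempty.card_pos
  have hdist : ∀ x y, H.edist x y ≤ D := by
    intro x y
    obtain ⟨s, rfl⟩ := hsurj x
    obtain ⟨t, rfl⟩ := hsurj y
    obtain ⟨w, hw⟩ := (p.preconnected s t).exists_walk_length_eq_dist
    have h1 := (w.map F).edist_le
    have h2 : (w.map F).length = w.length := SimpleGraph.Walk.length_map _ _
    rw [h2, hw] at h1
    refine h1.trans ?_
    have h3 := p.dist_le_facets s t
    have h4 : p.G.dist s t ≤ D := by rw [hD]; omega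
    exact_mod_cast h4
  have hdiam : H.diam ≤ D := by
    unfold SimpleGraph.diam
    apply ENat.toNat_le_of_le_natCast
    unfold SimpleGraph.ediam
    exact iSup_le fun x => by
      unfold SimpleGraph.eccent
      exact iSup_le fun y => hdist x y
  omega

end SP

end Pool.Agent.helper87.ArrD3
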