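import Pool.Agent.helper87.ArrD3.Poly

set_option autoImplicit false

/-!
# Balinski's theorem for simple 3-polytopes and the diameter bound `3 δ ≤ V + 1`
-/

namespace Pool.Agent.helper87.ArrD3

open Finset

namespace SP

variable {ι : Type} [Fintype ι] [DecidableEq ι] (p : SP ι)

/-- one step of the graph of `P` avoiding `X` -/
def Step (X : Finset (Finset ι)) (s t : Finset ι) : Prop :=
  s ∈ p.Vx ∧ t ∈ p.Vx ∧ Adj s t ∧ s ∉ X ∧ t ∉ X

lemma Step.symm' {X : Finset (Finset ι)} {s t : Finset ι} (h : p.Step X s t) : p.Step X t s :=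
  ⟨h.2.1, h.1, h.2.2.1.symm', h.2.2.2.2, h.2.2.2.1⟩

/-- reachability avoiding `X` -/
def Reach (X : Finset (Finset ι)) : Finset ι → Finset ι → Prop :=
  Relation.ReflTransGen (p.Step X)

lemma Reach.symm' {X : Finset (Finset ι)} {s t : Finset ι} (h : p.Reach X s t) : p.Reach X t s := by
  unfold Reach at h ⊢
  induction h with
  | refl => exact Relation.ReflTransGen.refl
  | tail _ h2 ih => exact Relation.ReflTransGen.head (Step.symm' p h2) ih

/-- A generic refinement of a linear functional. -/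
lemma exists_refine (l : V →ₗ[ℝ] ℝ) : ∃ m : V →ₗ[ℝ] ℝ,
    (∀ s ∈ p.Vx, ∀ t ∈ p.Vx, m (p.pt s) = m (p.pt t) → s = t) ∧
    (∀ s ∈ p.Vx, ∀ t ∈ p.Vx, l (p.pt s) < l (p.pt t) → m (p.pt s) < m (p.pt t)) := by
  obtain ⟨e, he⟩ := p.exists_generic
  have h1 : ∀ᶠ r : ℝ in nhdsWithin 0 (Set.Ioi 0), ∀ q ∈ p.Vx ×ˢ p.Vx,
      l (p.pt q.1) < l (p.pt q.2) →
        l (p.pt q.1) + r * e (p.pt q.1) < l (p.pt q.2) + r * e (p.pt q.2) := by
    rw [Filter.eventually_all_finset]
    intro q _
    by_cases hq : l (p.pt q.1) < l (p.pt q.2)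
    · have hc1 : Continuous (fun r : ℝ => l (p.pt q.1) + r * e (p.pt q.1)) := by fun_prop
      have hc2 : Continuous (fun r : ℝ => l (p.pt q.2) + r * e (p.pt q.2)) := by fun_prop
      have h3 := (isOpen_lt hc1 hc2).mem_nhds (x := (0 : ℝ)) (by simpa using hq)
      exact (mem_nhdsWithin_of_mem_nhds h3 : _) |> fun h => Filter.mem_of_superset h (fun r hr _ => hr)
    · exact Filter.Eventually.of_forall fun r h => absurd h hq
  have h2 : ∀ᶠ r : ℝ in nhdsWithin 0 (Set.Ioi 0), 0 < r := self_mem_nhdsWithin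
  obtain ⟨r, hr1, hr2⟩ := (h1.and h2).exists
  have key : ∀ s ∈ p.Vx, ∀ t ∈ p.Vx, l (p.pt s) < l (p.pt t) →
      (l + r • e) (p.pt s) < (l + r • e) (p.pt t) := by
    intro s hs t ht h
    have := hr1 (s, t) (mem_product.2 ⟨hs, ht⟩) h
    simpa using this
  refine ⟨l + r • e, fun s hs t ht h => ?_, key⟩
  rcases lt_trichotomy (l (p.pt s)) (l (p.pt t)) with h3 | h3 | h3
  · exact absurd h (key s hs t ht h3).ne
  · simp only [LinearMap.add_apply, LinearMap.smul_apply, smul_eq_mul, h3, add_right_inj] at h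
    exact he s hs t ht (mul_left_cancel₀ hr2.ne' h)
  · exact absurd h (key t ht s hs h3).ne'

/-- All vertices strictly above the level `c` are connected above the level `c`. -/
lemma reach_above {X : Finset (Finset ι)} {l : V →ₗ[ℝ] ℝ} {c : ℝ}
    (hX : ∀ s ∈ X, l (p.pt s) ≤ c) {s t : Finset ι} (hs : s ∈ p.Vx) (ht : t ∈ p.Vx)
    (hsc : c < l (p.pt s)) (htc : c < l (p.pt t)) : p.Reach X s t := by
  classical
  obtain ⟨m, hm, hlm⟩ := p.exists_refine l
  obtain ⟨T, hT, hTmax⟩ := Finset.exists_max_image p.Vx (fun s => m (p.pt s)) ⟨s, hs⟩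
  have hnot : ∀ u, c < l (p.pt u) → u ∉ X := fun u hu hX' => absurd (hX u hX') (not_le.mpr hu)
  have key : ∀ k : ℕ, ∀ u ∈ p.Vx, c < l (p.pt u) →
      (p.Vx.filter (fun w => m (p.pt u) < m (p.pt w))).card = k → p.Reach X u T := by
    intro k
    induction k using Nat.strong_induction_on with
    | _ k ih =>
      intro u hu huc hk
      by_cases huT : u = T
      · rw [huT]; exact Relation.ReflTransGen.refl
      · have h1 : m (p.pt u) < m (p.pt T) := by
          rcases (hTmax u hu).lt_or_eq with h | h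
          · exact h
          · exact absurd (hm u hu T hT h) huT
        obtain ⟨w, hw, hadj, hlt⟩ := p.exists_better hu m (p.mem_Vx.1 hT).2 h1
        have hwc : c < l (p.pt w) := by
          by_contra h
          push Not at h
          have := hlm w hw u hu (lt_of_le_of_lt h huc)
          linarith
        refine Relation.ReflTransGen.head ⟨hu, hw, hadj, hnot u huc, hnot w hwc⟩ ?_
        refine ih _ ?_ w hw hwc rfl
        rw [← hk]
        apply card_lt_card
        rw [ssubset_iff_of_subset]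
        · exact ⟨w, by simp [hw, hlt], by simp⟩
        · intro x hx
          rw [mem_filter] at hx ⊢
          exact ⟨hx.1, hlt.trans hx.2⟩
  exact (key _ s hs hsc rfl).trans (Reach.symm' p (key _ t ht htc rfl))

lemma reach_of_level {X : Finset (Finset ι)} {l : V →ₗ[ℝ] ℝ} {c : ℝ}
    (hX : ∀ s ∈ X, l (p.pt s) = c) {s t T : Finset ι} (hs : s ∈ p.Vx) (ht : t ∈ p.Vx)
    (hsX : s ∉ X) (htX : t ∉ X) (hsc : c ≤ l (p.pt s)) (htc : c ≤ l (p.pt t))
    (hT : T ∈ p.Vx) (hTc : c < l (p.pt T)) : p.Reach X s t := by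
  have key : ∀ u ∈ p.Vx, u ∉ X → c ≤ l (p.pt u) → p.Reach X u T := by
    intro u hu huX huc
    rcases huc.lt_or_eq with h | h
    · exact p.reach_above (fun s hs => (hX s hs).le) hu hT h hTc
    · obtain ⟨w, hw, hadj, hlt⟩ := p.exists_better hu l (p.mem_Vx.1 hT).2 (by rw [← h]; exact hTc)
      have hwc : c < l (p.pt w) := by rw [h]; exact hlt
      have hwX : w ∉ X := fun h' => by
        have := hX w h'
        linarith
      refine Relation.ReflTransGen.head ⟨hu, hw, hadj, huX, hwX⟩ ?_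
      exact p.reach_above (fun s hs => (hX s hs).le) hw hT hwc hTc
  exact (key s hs hsX hsc).trans (Reach.symm' p (key t ht htX htc))

/-- **Balinski's theorem** for simple 3-polytopes. -/
theorem balinski {X : Finset (Finset ι)} (hXc : X.card ≤ 2) {s t : Finset ι}
    (hs : s ∈ p.Vx) (ht : t ∈ p.Vx) (hsX : s ∉ X) (htX : t ∉ X) : p.Reach X s t := by
  classical
  -- a plane through `s` and the points of `X`
  set Y : Finset V := X.image (fun x => p.pt x - p.pt s) with hY
  have hYc : Y.card ≤ 2 := card_image_le.trans hXc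
  have hlt : Submodule.span ℝ (Y : Set V) < ⊤ := by
    rw [lt_top_iff_ne_top]
    intro h
    have h1 := finrank_span_finset_le_card (R := ℝ) Y
    rw [Set.finrank, h, finrank_top] at h1
    simp at h1
    omega
  obtain ⟨l, hl0, hl⟩ := Submodule.exists_le_ker_of_lt_top _ hlt
  have hXl : ∀ x ∈ X, l (p.pt x) = l (p.pt s) := by
    intro x hx
    have : p.pt x - p.pt s ∈ Submodule.span ℝ (Y : Set V) := by
      apply Submodule.subset_span
      rw [hY, coe_image]
      exact ⟨x, hx, rfl⟩
    have h1 := hl this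
    rw [LinearMap.mem_ker, map_sub] at h1
    linarith
  have hXl' : ∀ x ∈ X, (-l) (p.pt x) = (-l) (p.pt s) := by
    intro x hx
    simp [hXl x hx]
  rcases lt_trichotomy (l (p.pt s)) (l (p.pt t)) with h | h | h
  · exact p.reach_of_level hXl hs ht hsX htX le_rfl h.le ht h
  · -- find a vertex off the plane
    have hT : ∃ T ∈ p.Vx, l (p.pt T) ≠ l (p.pt s) := by
      by_contra hcon
      push Not at hcon
      apply hl0
      apply LinearMap.ext
      intro w
      rw [p.expand_apply (p.mem_Vx.1 hs).1 l w]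
      apply Finset.sum_eq_zero
      intro k hk
      obtain ⟨s', h1, _, r, hr, h3⟩ := p.exists_nb' hs hk
      have h4 := hcon s' h1
      rw [h3, map_add, map_smul, smul_eq_mul] at h4
      have h5 : r * l (p.dv s k) = 0 := by linarith
      rcases mul_eq_zero.1 h5 with h6 | h6
      · linarith
      · rw [h6, mul_zero]
    obtain ⟨T, hTV, hT⟩ := hT
    rcases lt_or_gt_of_ne hT with h1 | h1
    · refine p.reach_of_level hXl' hs ht hsX htX le_rfl ?_ hTV ?_
      · simp [h]
      · simpa using h1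
    · exact p.reach_of_level hXl hs ht hsX htX le_rfl h.le hTV h1
  · refine p.reach_of_level hXl' hs ht hsX htX le_rfl ?_ ht ?_
    · simpa using h.le
    · simpa using h

/-- the graph of `P` -/
def G : SimpleGraph {s // s ∈ p.Vx} where
  Adj s t := Adj s.1 t.1
  symm := ⟨fun _ _ h => h.symm'⟩
  loopless := ⟨fun _ h => h.1 rfl⟩

lemma reachable_of_reach {s t : Finset ι} (hs : s ∈ p.Vx) (h : p.Reach ∅ s t) :
    ∃ ht : t ∈ p.Vx, p.G.Reachable ⟨s, hs⟩ ⟨t, ht⟩ := by
  unfold Reach at h
  induction h with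
  | refl => exact ⟨hs, SimpleGraph.Reachable.refl _⟩
  | tail _ h2 ih =>
    obtain ⟨h3, h4⟩ := ih
    refine ⟨h2.2.1, h4.trans ?_⟩
    exact SimpleGraph.Adj.reachable (G := p.G) h2.2.2.1

lemma preconnected : p.G.Preconnected := by
  intro s t
  obtain ⟨ht, h⟩ := p.reachable_of_reach s.2
    (p.balinski (X := ∅) (by simp) s.2 t.2 (by simp) (by simp))
  exact h

/-- Every intermediate BFS layer has at least three vertices. -/
lemma layer_card (u v : {s // s ∈ p.Vx}) {i : ℕ} (hi : 1 ≤ i) (hiv : i < p.G.dist u v) :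
    3 ≤ (univ.filter (fun w : {s // s ∈ p.Vx} => p.G.dist u w = i)).card := by
  classical
  by_contra hcon
  push Not at hcon
  set X : Finset (Finset ι) :=
    (univ.filter (fun w : {s // s ∈ p.Vx} => p.G.dist u w = i)).map (Function.Embedding.subtype _)
    with hX
  have hXc : X.card ≤ 2 := by
    rw [hX, card_map]; omega
  have hmem : ∀ w : {s // s ∈ p.Vx}, (w : Finset ι) ∈ X ↔ p.G.dist u w = i := by
    intro w
    rw [hX]
    simp
  have hXV : X ⊆ p.Vx := by
    intro x hx
    rw [hX, mem_map] at hx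
    obtain ⟨w, _, rfl⟩ := hx
    exact w.2
  have huX : (u : Finset ι) ∉ X := by
    rw [hmem, SimpleGraph.dist_self]; omega
  have hvX : (v : Finset ι) ∉ X := by
    rw [hmem]; omega
  have hr := p.balinski hXc u.2 v.2 huX hvX
  have key : ∀ w, p.Reach X u w → ∃ hw : w ∈ p.Vx, p.G.dist u ⟨w, hw⟩ < i := by
    intro w hw
    unfold Reach at hw
    induction hw with
    | refl => exact ⟨u.2, by rw [SimpleGraph.dist_self]; omega⟩
    | @tail b c _ h2 ih =>
      obtain ⟨h3, h4⟩ := ih
      refine ⟨h2.2.1, ?_⟩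
      have h5 : p.G.dist ⟨b, h3⟩ ⟨c, h2.2.1⟩ ≤ 1 := by
        have : p.G.Adj ⟨b, h3⟩ ⟨c, h2.2.1⟩ := h2.2.2.1
        rw [SimpleGraph.dist_eq_one_iff_adj.2 this]
      have h6 : p.G.dist u ⟨c, h2.2.1⟩ ≤ p.G.dist u ⟨b, h3⟩ + p.G.dist ⟨b, h3⟩ ⟨c, h2.2.1⟩ :=
        SimpleGraph.Connected.dist_triangle (by
          have : Nonempty {s // s ∈ p.Vx} := ⟨u⟩
          exact ⟨p.preconnected⟩)
      have h7 : p.G.dist u ⟨c, h2.2.1⟩ ≠ i := by
        rw [Ne, ← hmem]
        exact h2.2.2.2.2
      omega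
  obtain ⟨_, h8⟩ := key v hr
  simp only [Subtype.coe_eta] at h8
  omega

/-- The diameter bound. -/
theorem dist_le (u v : {s // s ∈ p.Vx}) : 3 * p.G.dist u v ≤ p.Vx.card + 1 := by
  classical
  by_cases h0 : p.G.dist u v = 0
  · omega
  set δ := p.G.dist u v with hδ
  have hpos : ∀ m, m ≤ δ - 1 → 1 + 3 * m ≤
      ∑ i ∈ range (m + 1), (univ.filter (fun w : {s // s ∈ p.Vx} => p.G.dist u w = i)).card := by
    intro m
    induction m with
    | zero =>
      intro _
      simp only [zero_add, range_one, sum_singleton, mul_zero, add_zero]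
      apply Nat.one_le_iff_ne_zero.2
      apply card_ne_zero_of_mem (a := u)
      simp
    | succ m ih =>
      intro hm
      rw [sum_range_succ]
      have h1 := ih (by omega)
      have h2 := p.layer_card u v (i := m + 1) (by omega) (by omega)
      omega
  have h1 := hpos (δ - 1) le_rfl
  have h2 : 1 ≤ (univ.filter (fun w : {s // s ∈ p.Vx} => p.G.dist u w = δ)).card := by
    apply Nat.one_le_iff_ne_zero.2
    apply card_ne_zero_of_mem (a := v)
    simp [hδ]
  have h3 : ∑ i ∈ range (δ + 1), (univ.filter (fun w : {s // s ∈ p.Vx} => p.G.dist u w = i)).card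
      ≤ (univ : Finset {s // s ∈ p.Vx}).card := by
    rw [← card_biUnion]
    · exact card_le_card (subset_univ _)
    · intro i _ j _ hij
      rw [Function.onFun, disjoint_left]
      intro w hw hw'
      rw [mem_filter] at hw hw'
      exact hij (hw.2.symm.trans hw'.2)
  rw [sum_range_succ] at h3
  have h4 : δ - 1 + 1 = δ := by omega
  rw [h4] at h1
  rw [card_univ, Fintype.card_coe] at h3
  omega

/-- There is a vertex. -/
lemma Vx_nonempty : p.Vx.Nonempty := by
  classical
  -- take a point of `P` with the largest number of active planes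
  have hne : ∃ k, ∃ x ∈ p.P, (univ.filter (fun i => p.g i x = 0)).card = k := by
    obtain ⟨x, hx⟩ := p.int
    exact ⟨_, x, fun i => (hx i).le, rfl⟩
  obtain ⟨x, hx, hmax⟩ : ∃ x ∈ p.P, ∀ y ∈ p.P, (univ.filter (fun i => p.g i y = 0)).card ≤
      (univ.filter (fun i => p.g i x = 0)).card := by
    have hb : ∀ k, (∃ x ∈ p.P, (univ.filter (fun i => p.g i x = 0)).card = k) →
        k ≤ Fintype.card ι := by
      rintro k ⟨x, _, rfl⟩
      exact card_le_univ _
    obtain ⟨k0, hk0⟩ := hne
    obtain ⟨x, hx, hxk⟩ := Nat.findGreatest_spec (P := fun k => ∃ x ∈ p.P,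
      (univ.filter (fun i => p.g i x = 0)).card = k) (hb k0 hk0) hk0
    refine ⟨x, hx, fun y hy => ?_⟩
    rw [hxk]
    exact Nat.le_findGreatest (hb _ ⟨y, hy, rfl⟩) ⟨y, hy, rfl⟩
  set S := univ.filter (fun i => p.g i x = 0) with hS
  have hSc : 3 ≤ S.card := by
    by_contra hlt
    push Not at hlt
    obtain ⟨s, hSs, hs3⟩ := exists_superset_card_eq (s := S) (n := 3) (by omega) p.three
    have : ∃ k, k ∈ s ∧ k ∉ S := by
      by_contra hcon
      push Not at hcon
      have := card_le_card (show s ⊆ S from hcon)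
      omega
    obtain ⟨k, hks, hkS⟩ := this
    obtain ⟨t, ht, hxt, j, hj0, hj⟩ := p.move hx (p.dv_ne_zero hs3 hks) (by
      intro i hi
      have hi' : i ∈ S := by rw [hS]; simp [hi]
      rw [p.A_dv hs3 (hSs hi')]
      split_ifs <;> norm_num)
    have h1 := hmax _ hxt
    have h2 : insert j S ⊆ univ.filter (fun i => p.g i (x + t • p.dv s k) = 0) := by
      intro i hi
      rw [mem_filter]
      refine ⟨mem_univ _, ?_⟩
      rcases mem_insert.1 hi with rfl | hi
      · exact hj0
      · have h3 : p.g i x = 0 := (mem_filter.1 hi).2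
        have h4 : i ≠ k := fun h => hkS (h ▸ hi)
        rw [g_add, h3, p.A_dv hs3 (hSs hi), if_neg h4]; ring
    have h5 : j ∉ S := by
      intro hjS
      rw [p.A_dv hs3 (hSs hjS)] at hj
      split_ifs at hj <;> linarith
    have h6 := card_le_card h2
    rw [card_insert_of_notMem h5] at h6
    omega
  obtain ⟨s, hsS, hs3⟩ := exists_subset_card_eq hSc
  refine ⟨s, p.mem_Vx.2 ⟨hs3, ?_⟩⟩
  have : x = p.pt s := p.pt_unique hs3 (fun i hi => (mem_filter.1 (hsS hi)).2)
  rw [← this]
  exact hx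

/-- the combined bound -/
theorem dist_le_facets (u v : {s // s ∈ p.Vx}) : 3 * p.G.dist u v + 3 ≤ 2 * p.Fc.card := by
  have h1 := p.dist_le u v
  have h2 := p.card_Vx_le p.Vx_nonempty
  omega

end SP

end Pool.Agent.helper87.ArrD3
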