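import Mathlib

set_option autoImplicit false

/-!
# Simple bounded 3-polytopes given by signed linear inequalities: vertices, edges, simplex method
-/

namespace Pool.Agent.helper87.ArrD3

open Finset

abbrev V := Fin 3 → ℝ

/-- A simple bounded 3-polytope `{x | ∀ i, 0 ≤ A i x + c i}` with nonempty interior, such that
every three of the normals are independent and no four of the planes have a common point. -/
structure SP (ι : Type) [Fintype ι] [DecidableEq ι] where
  A : ι → V →ₗ[ℝ] ℝ
  c : ι → ℝ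
  three : 3 ≤ Fintype.card ι
  indep : ∀ s : Finset ι, s.card = 3 → ∀ r : ι → ℝ, ∃! x : V, ∀ i ∈ s, A i x = r i
  gen : ∀ s : Finset ι, s.card = 4 → ¬ ∃ x : V, ∀ i ∈ s, A i x + c i = 0
  bdd : ∀ y : V, (∀ i, 0 ≤ A i y) → y = 0
  int : ∃ x : V, ∀ i, 0 < A i x + c i

namespace SP

variable {ι : Type} [Fintype ι] [DecidableEq ι] (p : SP ι)

/-- the defining affine functions -/
def g (i : ι) (x : V) : ℝ := p.A i x + p.c i

/-- the polytope -/
def P : Set V := {x | ∀ i, 0 ≤ p.g i x}

lemma g_add (i : ι) (x v : V) (t : ℝ) : p.g i (x + t • v) = p.g i x + t * p.A i v := by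
  simp only [g, map_add, map_smul, smul_eq_mul]; ring

/-- the intersection point of three of the planes -/
noncomputable def pt (s : Finset ι) : V :=
  if h : s.card = 3 then (p.indep s h (fun i => - p.c i)).exists.choose else 0

lemma g_pt {s : Finset ι} (h : s.card = 3) {i : ι} (hi : i ∈ s) : p.g i (p.pt s) = 0 := by
  have := (p.indep s h (fun i => - p.c i)).exists.choose_spec i hi
  unfold g pt
  rw [dif_pos h, this]; ring

lemma pt_unique {s : Finset ι} (h : s.card = 3) {x : V} (hx : ∀ i ∈ s, p.g i x = 0) :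
    x = p.pt s := by
  refine (p.indep s h (fun i => - p.c i)).unique (fun i hi => ?_) (fun i hi => ?_)
  · have := hx i hi; unfold g at this; linarith
  · have := p.g_pt h hi; unfold g at this; linarith

/-- the dual basis of three of the normals -/
noncomputable def dv (s : Finset ι) (k : ι) : V :=
  if h : s.card = 3 then (p.indep s h (fun i => if i = k then 1 else 0)).exists.choose else 0

lemma A_dv {s : Finset ι} (h : s.card = 3) {i : ι} (hi : i ∈ s) (k : ι) :
    p.A i (p.dv s k) = if i = k then 1 else 0 := by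
  have := (p.indep s h (fun i => if i = k then 1 else 0)).exists.choose_spec i hi
  unfold dv
  rw [dif_pos h, this]

lemma dv_ne_zero {s : Finset ι} (h : s.card = 3) {k : ι} (hk : k ∈ s) : p.dv s k ≠ 0 := by
  intro h0
  have := p.A_dv h hk k
  rw [h0] at this
  simp at this

lemma expand {s : Finset ι} (h : s.card = 3) (w : V) :
    w = ∑ k ∈ s, p.A k w • p.dv s k := by
  refine (p.indep s h (fun i => p.A i w)).unique (fun i _ => rfl) (fun i hi => ?_)
  rw [map_sum]
  simp only [map_smul, p.A_dv h hi, smul_eq_mul, mul_ite, mul_one, mul_zero]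
  rw [Finset.sum_ite_eq, if_pos hi]

lemma expand_apply {s : Finset ι} (h : s.card = 3) (l : V →ₗ[ℝ] ℝ) (w : V) :
    l w = ∑ k ∈ s, p.A k w * l (p.dv s k) := by
  conv_lhs => rw [p.expand h w]
  rw [map_sum]
  simp only [map_smul, smul_eq_mul]

/-- Moving from a point of `P` in an admissible direction until a new plane is hit. -/
lemma move {x v : V} (hx : x ∈ p.P) (hv : v ≠ 0) (hact : ∀ i, p.g i x = 0 → 0 ≤ p.A i v) :
    ∃ t : ℝ, 0 < t ∧ x + t • v ∈ p.P ∧ ∃ j, p.g j (x + t • v) = 0 ∧ p.A j v < 0 := by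
  classical
  have hJ : (univ.filter (fun j => p.A j v < 0)).Nonempty := by
    by_contra hne
    rw [Finset.not_nonempty_iff_eq_empty] at hne
    apply hv
    apply p.bdd
    intro i
    by_contra hi
    push Not at hi
    have : i ∈ univ.filter (fun j => p.A j v < 0) := by simp [hi]
    rw [hne] at this
    simp at this
  obtain ⟨j, hj, hmin⟩ := Finset.exists_min_image _ (fun j => p.g j x / (- p.A j v)) hJ
  simp only [mem_filter, mem_univ, true_and] at hj hmin
  have hgj : 0 < p.g j x := by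
    rcases (hx j).lt_or_eq with h | h
    · exact h
    · exact absurd (hact j h.symm) (not_le.mpr hj)
  have hjn : 0 < - p.A j v := by linarith
  refine ⟨p.g j x / (- p.A j v), div_pos hgj hjn, ?_, j, ?_, hj⟩
  · intro i
    rw [g_add]
    rcases le_or_gt 0 (p.A i v) with h | h
    · have h1 := hx i
      have h2 : 0 ≤ p.g j x / (- p.A j v) * p.A i v := mul_nonneg (div_pos hgj hjn).le h
      linarith
    · have h1 := hmin i h
      have h2 : 0 < - p.A i v := by linarith
      rw [le_div_iff₀ h2] at h1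
      linarith
  · rw [g_add]
    have hj0 : p.A j v ≠ 0 := by linarith
    have h1 : p.g j x / (- p.A j v) * p.A j v = - p.g j x := by
      field_simp
    rw [h1]; ring

/-- The vertices, each represented by the set of the three planes through it. -/
noncomputable def Vx : Finset (Finset ι) := by
  classical
  exact univ.filter (fun s => s.card = 3 ∧ p.pt s ∈ p.P)

lemma mem_Vx {s : Finset ι} : s ∈ p.Vx ↔ s.card = 3 ∧ p.pt s ∈ p.P := by
  unfold Vx
  simp

lemma pos_of_notMem {s : Finset ι} (hs : s ∈ p.Vx) {i : ι} (hi : i ∉ s) :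
    0 < p.g i (p.pt s) := by
  obtain ⟨h3, hP⟩ := p.mem_Vx.1 hs
  rcases (hP i).lt_or_eq with h | h
  · exact h
  · exfalso
    apply p.gen (insert i s) (by rw [card_insert_of_notMem hi, h3])
    refine ⟨p.pt s, fun j hj => ?_⟩
    rcases mem_insert.1 hj with rfl | hj
    · exact h.symm
    · exact p.g_pt h3 hj

lemma g_eq_zero_iff {s : Finset ι} (hs : s ∈ p.Vx) {i : ι} : p.g i (p.pt s) = 0 ↔ i ∈ s := by
  constructor
  · intro h
    by_contra hi
    exact (p.pos_of_notMem hs hi).ne' h
  · intro h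
    exact p.g_pt (p.mem_Vx.1 hs).1 h

lemma pt_inj {s t : Finset ι} (hs : s ∈ p.Vx) (ht : t ∈ p.Vx) (h : p.pt s = p.pt t) : s = t := by
  ext i
  rw [← p.g_eq_zero_iff hs, ← p.g_eq_zero_iff ht, h]

lemma exists_nb {s : Finset ι} (hs : s ∈ p.Vx) {k : ι} (hk : k ∈ s) :
    ∃ s' ∈ p.Vx, s.erase k ⊆ s' ∧ k ∉ s' ∧ ∃ t : ℝ, 0 < t ∧ p.pt s' = p.pt s + t • p.dv s k := by
  obtain ⟨h3, hP⟩ := p.mem_Vx.1 hs
  obtain ⟨t, ht, hxt, j, hj0, hj⟩ := p.move hP (p.dv_ne_zero h3 hk) (by
    intro i hi
    rw [p.g_eq_zero_iff hs] at hi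
    rw [p.A_dv h3 hi]
    split_ifs <;> norm_num)
  have hjs : j ∉ s := by
    intro hjs
    rw [p.A_dv h3 hjs] at hj
    split_ifs at hj <;> linarith
  have hjk : j ∉ s.erase k := fun h => hjs (mem_of_mem_erase h)
  have hc : (insert j (s.erase k)).card = 3 := by
    rw [card_insert_of_notMem hjk, card_erase_of_mem hk, h3]
  have hpt : p.pt s + t • p.dv s k = p.pt (insert j (s.erase k)) := by
    apply p.pt_unique hc
    intro i hi
    rcases mem_insert.1 hi with rfl | hi
    · exact hj0
    · rw [g_add, p.g_pt h3 (mem_of_mem_erase hi), p.A_dv h3 (mem_of_mem_erase hi),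
        if_neg (ne_of_mem_erase hi)]
      ring
  refine ⟨insert j (s.erase k), p.mem_Vx.2 ⟨hc, by rw [← hpt]; exact hxt⟩,
    subset_insert _ _, ?_, t, ht, hpt.symm⟩
  intro h
  rcases mem_insert.1 h with rfl | h
  · exact hjs hk
  · exact (notMem_erase k s) h

/-- adjacency of vertices -/
def Adj (s t : Finset ι) : Prop := s ≠ t ∧ 2 ≤ (s ∩ t).card

omit [Fintype ι] in
lemma Adj.symm' {s t : Finset ι} (h : Adj s t) : Adj t s := by
  refine ⟨h.1.symm, ?_⟩
  rw [inter_comm]
  exact h.2

lemma exists_nb' {s : Finset ι} (hs : s ∈ p.Vx) {k : ι} (hk : k ∈ s) :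
    ∃ s' ∈ p.Vx, Adj s s' ∧ ∃ t : ℝ, 0 < t ∧ p.pt s' = p.pt s + t • p.dv s k := by
  obtain ⟨s', h1, h2, h3, h4⟩ := p.exists_nb hs hk
  refine ⟨s', h1, ⟨?_, ?_⟩, h4⟩
  · rintro rfl
    exact h3 hk
  · have : s.erase k ⊆ s ∩ s' := subset_inter (erase_subset _ _) h2
    have h5 := card_le_card this
    rw [card_erase_of_mem hk, (p.mem_Vx.1 hs).1] at h5
    exact h5

/-- A linear functional attains its maximum over `P ∩ {g j = 0 for j with l (dv s j) > 0}` at
the vertex `s`. -/
lemma le_of_local_max {s : Finset ι} (hs : s ∈ p.Vx) (l : V →ₗ[ℝ] ℝ) {x : V} (hx : x ∈ p.P)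
    (h : ∀ k ∈ s, p.g k x = 0 ∨ l (p.dv s k) ≤ 0) : l x ≤ l (p.pt s) := by
  obtain ⟨h3, hP⟩ := p.mem_Vx.1 hs
  have h1 := p.expand_apply h3 l (x - p.pt s)
  have h2 : ∑ k ∈ s, p.A k (x - p.pt s) * l (p.dv s k) ≤ 0 := by
    apply Finset.sum_nonpos
    intro k hk
    have h4 : p.A k (x - p.pt s) = p.g k x := by
      have := p.g_pt h3 hk
      unfold g at this ⊢
      rw [map_sub]; linarith
    rw [h4]
    rcases h k hk with h5 | h5
    · rw [h5]; simp
    · exact mul_nonpos_of_nonneg_of_nonpos (hx k) h5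
  rw [map_sub] at h1
  linarith

/-- The simplex method: a vertex which is not a maximum has a better neighbour. -/
lemma exists_better {s : Finset ι} (hs : s ∈ p.Vx) (l : V →ₗ[ℝ] ℝ) {x : V} (hx : x ∈ p.P)
    (h : l (p.pt s) < l x) : ∃ s' ∈ p.Vx, Adj s s' ∧ l (p.pt s) < l (p.pt s') := by
  by_contra hcon
  push Not at hcon
  refine absurd (p.le_of_local_max hs l hx fun k hk => Or.inr ?_) (not_le.mpr h)
  obtain ⟨s', h1, h2, t, ht, h3⟩ := p.exists_nb' hs hk
  have h4 := hcon s' h1 h2
  rw [h3, map_add, map_smul, smul_eq_mul] at h4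
  by_contra h5
  push Not at h5
  have := mul_pos ht h5
  linarith

/-- There is a linear functional which is injective on the vertices. -/
lemma exists_generic : ∃ l : V →ₗ[ℝ] ℝ, ∀ s ∈ p.Vx, ∀ t ∈ p.Vx, l (p.pt s) = l (p.pt t) → s = t := by
  classical
  let J := {q : Finset ι × Finset ι // q.1 ∈ p.Vx ∧ q.2 ∈ p.Vx ∧ q.1 ≠ q.2}
  obtain ⟨l, hl⟩ := Module.exists_dual_forall_apply_ne_zero (K := ℝ) (M := V)
    (fun q : J => p.pt q.1.1 - p.pt q.1.2) (by
      intro q h0
      exact q.2.2.2 (p.pt_inj q.2.1 q.2.2.1 (sub_eq_zero.1 h0)))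
  refine ⟨l, fun s hs t ht h => ?_⟩
  by_contra hst
  apply hl ⟨(s, t), hs, ht, hst⟩
  simp [h]

lemma dv_ne_of_generic {l : V →ₗ[ℝ] ℝ}
    (hl : ∀ s ∈ p.Vx, ∀ t ∈ p.Vx, l (p.pt s) = l (p.pt t) → s = t)
    {s : Finset ι} (hs : s ∈ p.Vx) {k : ι} (hk : k ∈ s) : l (p.dv s k) ≠ 0 := by
  intro h0
  obtain ⟨s', h1, h2, t, ht, h3⟩ := p.exists_nb' hs hk
  apply h2.1
  apply hl s hs s' h1
  rw [h3, map_add, map_smul, h0]
  simp

/-- The facets. -/
noncomputable def Fc : Finset ι := p.Vx.biUnion id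

/-- the set of upward edges at `s` -/
noncomputable def up (l : V →ₗ[ℝ] ℝ) (s : Finset ι) : Finset ι :=
  s.filter (fun k => 0 < l (p.dv s k))

lemma card_up_zero {l : V →ₗ[ℝ] ℝ}
    (hl : ∀ s ∈ p.Vx, ∀ t ∈ p.Vx, l (p.pt s) = l (p.pt t) → s = t) :
    (p.Vx.filter (fun s => (p.up l s).card = 0)).card ≤ 1 := by
  rw [Finset.card_le_one]
  have key : ∀ s ∈ p.Vx, (p.up l s).card = 0 → ∀ t ∈ p.Vx, l (p.pt t) ≤ l (p.pt s) := by
    intro s hs h0 t ht
    apply p.le_of_local_max hs l (p.mem_Vx.1 ht).2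
    intro k hk
    right
    by_contra h
    push Not at h
    rw [card_eq_zero] at h0
    have : k ∈ p.up l s := by simp [up, hk, h]
    rw [h0] at this
    simp at this
  intro s hs t ht
  rw [mem_filter] at hs ht
  exact hl s hs.1 t ht.1 (le_antisymm (key t ht.1 ht.2 s hs.1) (key s hs.1 hs.2 t ht.1))

lemma card_up_one {l : V →ₗ[ℝ] ℝ}
    (hl : ∀ s ∈ p.Vx, ∀ t ∈ p.Vx, l (p.pt s) = l (p.pt t) → s = t) (hne : p.Vx.Nonempty) :
    (p.Vx.filter (fun s => (p.up l s).card = 1)).card + 3 ≤ p.Fc.card := by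
  classical
  obtain ⟨T, hT, hTmax⟩ := Finset.exists_max_image p.Vx (fun s => l (p.pt s)) hne
  have hT3 := (p.mem_Vx.1 hT).1
  have hTF : T ⊆ p.Fc := by
    intro i hi
    exact mem_biUnion.2 ⟨T, hT, hi⟩
  have hcard : (p.Fc \ T).card + 3 = p.Fc.card := by
    rw [← hT3]; exact card_sdiff_add_card_eq_card hTF
  have hle : (p.Vx.filter (fun s => (p.up l s).card = 1)).card ≤ (p.Fc \ T).card := by
    -- the unique upward edge
    have : Nonempty ι := Fintype.card_pos_iff.1 (by have := p.three; omega)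
    have hex : ∀ s ∈ p.Vx.filter (fun s => (p.up l s).card = 1), ∃ k, p.up l s = {k} := by
      intro s hs
      exact card_eq_one.1 (mem_filter.1 hs).2
    choose! φ hφ using hex
    have hφs : ∀ s ∈ p.Vx.filter (fun s => (p.up l s).card = 1), φ s ∈ s := by
      intro s hs
      have : φ s ∈ p.up l s := by rw [hφ s hs]; simp
      exact (mem_filter.1 this).1
    have hmax : ∀ s ∈ p.Vx.filter (fun s => (p.up l s).card = 1), ∀ t ∈ p.Vx, φ s ∈ t →
        l (p.pt t) ≤ l (p.pt s) := by
      intro s hs t ht hst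
      apply p.le_of_local_max (mem_filter.1 hs).1 l (p.mem_Vx.1 ht).2
      intro k hk
      by_cases hk2 : k = φ s
      · left
        rw [hk2]
        exact (p.g_eq_zero_iff ht).2 hst
      · right
        by_contra h
        push Not at h
        have : k ∈ p.up l s := by simp [up, hk, h]
        rw [hφ s hs, mem_singleton] at this
        exact hk2 this
    apply Finset.card_le_card_of_injOn φ
    · intro s hs
      have hs' : s ∈ p.Vx.filter (fun s => (p.up l s).card = 1) := hs
      rw [mem_coe, mem_sdiff]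
      refine ⟨mem_biUnion.2 ⟨s, (mem_filter.1 hs').1, hφs s hs'⟩, ?_⟩
      intro hT'
      have h1 := hmax s hs' T hT hT'
      have h2 := hTmax s (mem_filter.1 hs').1
      have h3 : T = s := hl T hT s (mem_filter.1 hs').1 (le_antisymm h1 h2)
      -- the top vertex has no upward edge
      obtain ⟨s', h4, h5, t, ht, h6⟩ := p.exists_nb' (mem_filter.1 hs').1 (hφs s hs')
      have h7 : φ s ∈ p.up l s := by rw [hφ s hs']; simp
      have h8 := (mem_filter.1 h7).2
      have h9 := hTmax s' h4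
      rw [h3] at h9
      rw [h6, map_add, map_smul, smul_eq_mul] at h9
      have := mul_pos ht h8
      linarith
    · intro s hs t ht hst
      have hs' : s ∈ p.Vx.filter (fun s => (p.up l s).card = 1) := hs
      have ht' : t ∈ p.Vx.filter (fun s => (p.up l s).card = 1) := ht
      apply hl s (mem_filter.1 hs').1 t (mem_filter.1 ht').1
      apply le_antisymm
      · exact hmax t ht' s (mem_filter.1 hs').1 (by rw [← hst]; exact hφs s hs')
      · exact hmax s hs' t (mem_filter.1 ht').1 (by rw [hst]; exact hφs t ht')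
  omega

lemma card_up_neg {l : V →ₗ[ℝ] ℝ}
    (hl : ∀ s ∈ p.Vx, ∀ t ∈ p.Vx, l (p.pt s) = l (p.pt t) → s = t)
    {s : Finset ι} (hs : s ∈ p.Vx) : (p.up l s).card + (p.up (-l) s).card = 3 := by
  classical
  have h3 := (p.mem_Vx.1 hs).1
  have h1 : p.up (-l) s = s.filter (fun k => ¬ 0 < l (p.dv s k)) := by
    unfold up
    apply filter_congr
    intro k hk
    have := p.dv_ne_of_generic hl hs hk
    simp only [LinearMap.neg_apply, Left.neg_pos_iff, not_lt]
    constructor
    · intro h; exact h.le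
    · intro h; exact lt_of_le_of_ne h this
  have h2 : (p.up l s).card + (p.up (-l) s).card = s.card := by
    rw [h1]
    unfold up
    exact card_filter_add_card_filter_not _
  rw [h2, h3]

/-- **Euler's relation for simple 3-polytopes (inequality part)**: `V + 4 ≤ 2 f`. -/
theorem card_Vx_le (hne : p.Vx.Nonempty) : p.Vx.card + 4 ≤ 2 * p.Fc.card := by
  classical
  obtain ⟨l, hl⟩ := p.exists_generic
  have hl' : ∀ s ∈ p.Vx, ∀ t ∈ p.Vx, (-l) (p.pt s) = (-l) (p.pt t) → s = t := by
    intro s hs t ht h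
    apply hl s hs t ht
    simpa using h
  have h0 := p.card_up_zero hl
  have h1 := p.card_up_one hl hne
  have h0' := p.card_up_zero hl'
  have h1' := p.card_up_one hl' hne
  have h2 : p.Vx ⊆ (p.Vx.filter (fun s => (p.up l s).card = 0)) ∪
      (p.Vx.filter (fun s => (p.up l s).card = 1)) ∪
      ((p.Vx.filter (fun s => (p.up (-l) s).card = 0)) ∪
      (p.Vx.filter (fun s => (p.up (-l) s).card = 1))) := by
    intro s hs
    have := p.card_up_neg hl hs
    simp only [mem_union, mem_filter, hs, true_and]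
    omega
  have h3 := card_le_card h2
  have h4 := card_union_le ((p.Vx.filter (fun s => (p.up l s).card = 0)) ∪
      (p.Vx.filter (fun s => (p.up l s).card = 1)))
      ((p.Vx.filter (fun s => (p.up (-l) s).card = 0)) ∪
      (p.Vx.filter (fun s => (p.up (-l) s).card = 1)))
  have h5 := card_union_le (p.Vx.filter (fun s => (p.up l s).card = 0))
      (p.Vx.filter (fun s => (p.up l s).card = 1))
  have h6 := card_union_le (p.Vx.filter (fun s => (p.up (-l) s).card = 0))
      (p.Vx.filter (fun s => (p.up (-l) s).card = 1))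
  omega

end SP

end Pool.Agent.helper87.ArrD3
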